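import Pool.Agent.TH826.EF.Final
set_option autoImplicit false

/-!
The root `(1 + √(1 - 4 e))/2` of `h² - h + e` for small `e`, and functions `1 - ∑_i κ_i` for small
`κ_i`.
-/

namespace Pool.Agent.TH690.SF

open Pool.Agent.TH826.MK

open Pool.Agent.TH826.EF (norm_one_sub_ge)

section root

/-- `√(1 - 4 e)` -/
noncomputable def se (e : ℂ) : ℂ := Complex.exp (Complex.log (1 - 4 * e) / 2)

/-- `(1 + √(1 - 4 e))/2` -/
noncomputable def he (e : ℂ) : ℂ := (1 + se e) / 2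

variable {e : ℂ}

theorem norm_four_mul (h : ‖e‖ ≤ 1 / 16) : ‖-(4 * e)‖ ≤ 1 / 4 := by
  rw [norm_neg, norm_mul, Complex.norm_ofNat]
  linarith

theorem slit_e (h : ‖e‖ ≤ 1 / 16) : 1 - 4 * e ∈ Complex.slitPlane := by
  rw [sub_eq_add_neg]
  refine Complex.mem_slitPlane_of_norm_lt_one ?_
  have := norm_four_mul h
  linarith

theorem se_sq (h : ‖e‖ ≤ 1 / 16) : se e ^ 2 = 1 - 4 * e := by
  unfold se
  rw [← Complex.exp_nat_mul]
  push_cast
  rw [mul_div_cancel₀ _ (two_ne_zero), Complex.exp_log (Complex.slitPlane_ne_zero (slit_e h))]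

theorem he_eq (h : ‖e‖ ≤ 1 / 16) : he e ^ 2 - he e + e = 0 := by
  unfold he
  linear_combination (1 / 4) * se_sq h

theorem norm_se_sub_one (h : ‖e‖ ≤ 1 / 16) : ‖se e - 1‖ ≤ 3 / 8 := by
  have h1 := norm_four_mul h
  have h3 := Complex.norm_log_one_add_half_le_self (z := -(4 * e)) (by linarith)
  rw [← sub_eq_add_neg] at h3
  have h4 : ‖Complex.log (1 - 4 * e) / 2‖ ≤ 3 / 16 := by
    rw [norm_div, Complex.norm_ofNat]
    linarith
  have h6 := Complex.norm_exp_sub_one_le (x := Complex.log (1 - 4 * e) / 2)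
    (h4.trans (by norm_num))
  unfold se
  linarith

theorem norm_se_ge (h : ‖e‖ ≤ 1 / 16) : 5 / 8 ≤ ‖se e‖ := by
  have h1 := norm_se_sub_one h
  have h2 := norm_sub_norm_le 1 (1 - se e)
  rw [norm_one, sub_sub_cancel, norm_sub_rev] at h2
  linarith

theorem norm_one_add_se_ge (h : ‖e‖ ≤ 1 / 16) : 13 / 8 ≤ ‖1 + se e‖ := by
  have h1 := norm_se_sub_one h
  have h2 := norm_sub_norm_le 2 (1 - se e)
  have e1 : 2 - (1 - se e) = 1 + se e := by ring
  rw [e1, Complex.norm_ofNat, norm_sub_rev] at h2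
  linarith

theorem norm_he_ge (h : ‖e‖ ≤ 1 / 16) : 13 / 16 ≤ ‖he e‖ := by
  unfold he
  rw [norm_div, Complex.norm_ofNat]
  linarith [norm_one_add_se_ge h]

theorem norm_he_le (h : ‖e‖ ≤ 1 / 16) : ‖he e‖ ≤ 19 / 16 := by
  unfold he
  have h1 := norm_se_sub_one h
  have h2 : (1 + se e) / 2 = 1 + (se e - 1) / 2 := by ring
  rw [h2]
  refine (norm_add_le _ _).trans ?_
  rw [norm_one, norm_div, Complex.norm_ofNat]
  linarith

theorem abs_log_norm_he (h : ‖e‖ ≤ 1 / 16) : |Real.log ‖he e‖| ≤ 1 := by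
  have h1 := norm_he_ge h
  have h2 := norm_he_le h
  have h0 : 0 < ‖he e‖ := by linarith
  rw [abs_le]
  constructor
  · have h3 := Real.one_sub_inv_le_log_of_pos h0
    have h4 : ‖he e‖⁻¹ ≤ 2 := by
      rw [inv_le_comm₀ h0 (by norm_num)]
      linarith
    linarith
  · have h3 : Real.log ‖he e‖ ≤ ‖he e‖ - 1 := Real.log_le_sub_one_of_pos h0
    linarith

theorem contDiffAt_he (h : ‖e‖ ≤ 1 / 16) {n : WithTop ℕ∞} : ContDiffAt ℂ n he e := by
  unfold he se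
  have h1 : ContDiffAt ℂ n (fun e : ℂ => 1 - 4 * e) e :=
    contDiffAt_const.sub (contDiffAt_const.mul contDiffAt_id)
  exact (contDiffAt_const.add
    (((Complex.contDiffAt_log (slit_e h)).comp e h1).div_const 2).cexp).div_const 2

theorem hasDerivAt_he (h : ‖e‖ ≤ 1 / 16) : HasDerivAt he (-(se e)⁻¹) e := by
  have hs0 : se e ≠ 0 := Complex.exp_ne_zero _
  have h1 : HasDerivAt (fun e : ℂ => 1 - 4 * e) (-4) e := by
    have h2 := ((hasDerivAt_id e).const_mul 4).const_sub 1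
    simpa using h2
  have h2 := ((h1.clog (slit_e h)).div_const 2).cexp
  have h3 := (h2.const_add 1).div_const 2
  have e1 : (-4 / (1 - 4 * e)) = (-4) / (se e) ^ 2 := by rw [se_sq h]
  refine h3.congr_deriv ?_
  rw [e1]
  show se e * (-4 / se e ^ 2 / 2) / 2 = -(se e)⁻¹
  field_simp
  norm_num

variable {n : ℕ} {κ : (Fin n → ℝ) → ℂ}

theorem good_he_comp (hκ : Good κ) (h : ∀ θ, ‖κ θ‖ ≤ 1 / 16) : Good fun θ => he (κ θ) := by
  refine ⟨?_, fun θ h0 => ?_⟩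
  · rw [contDiff_iff_contDiffAt]
    intro θ
    exact ((contDiffAt_he (h θ)).restrict_scalars ℝ).comp θ hκ.smooth.contDiffAt
  · have h1 := norm_he_ge (h θ)
    rw [h0, norm_zero] at h1
    norm_num at h1

theorem norm_lw_he_comp (hκ : Good κ) (h : ∀ θ, ‖κ θ‖ ≤ 1 / 16) (j : Fin n) (θ : Fin n → ℝ) :
    ‖lw (fun θ => he (κ θ)) j θ‖ ≤ 2 * ‖κ θ‖ * ‖lw κ j θ‖ := by
  have h1 : HasFDerivAt κ (fderiv ℝ κ θ) θ :=
    ((hκ.smooth.differentiable (by norm_num)) θ).hasFDerivAt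
  have h2 := (hasDerivAt_he (h θ)).comp_hasFDerivAt θ h1
  have h3 : fderiv ℝ (fun θ => he (κ θ)) θ = _ := h2.fderiv
  have h4 : lw (fun θ => he (κ θ)) j θ = -(κ θ * lw κ j θ) / (se (κ θ) * he (κ θ)) := by
    have h0 := hκ.ne_zero θ
    have hs0 : se (κ θ) ≠ 0 := Complex.exp_ne_zero _
    unfold lw
    rw [h3]
    simp only [smul_apply, smul_eq_mul]
    field_simp
  have h5 := norm_se_ge (h θ)
  have h6 := norm_he_ge (h θ)
  have h7 : 1 / 2 ≤ ‖se (κ θ)‖ * ‖he (κ θ)‖ := by nlinarith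
  rw [h4, norm_div, norm_neg, norm_mul, norm_mul, div_le_iff₀ (by linarith)]
  have h8 : 0 ≤ ‖κ θ‖ * ‖lw κ j θ‖ := by positivity
  nlinarith

end root

section pow

variable {n : ℕ} {g : (Fin n → ℝ) → ℂ}

theorem good_pow (hg : Good g) (k : ℕ) : Good fun θ => g θ ^ k :=
  ⟨hg.smooth.pow k, fun θ => pow_ne_zero k (hg.ne_zero θ)⟩

theorem lw_pow (hg : Good g) (k : ℕ) (j : Fin n) (θ : Fin n → ℝ) :
    lw (fun θ => g θ ^ k) j θ = k * lw g j θ := by
  induction k with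
  | zero =>
    simp only [pow_zero]
    rw [lw_const]
    simp
  | succ k ih =>
    have h1 : (fun θ => g θ ^ (k + 1)) = fun θ => g θ ^ k * g θ := by
      funext θ
      rw [pow_succ]
    rw [h1, lw_mul (good_pow hg k) hg, ih]
    push_cast
    ring

end pow

section sum

variable {n q : ℕ} {κ : Fin q → (Fin n → ℝ) → ℂ}

theorem good_one_sub_sum (hκ : ∀ i, Good (κ i)) (h : ∀ θ, ‖∑ i, κ i θ‖ ≤ 1 / 2) :
    Good fun θ => 1 - ∑ i, κ i θ := by
  refine ⟨contDiff_const.sub (ContDiff.sum fun i _ => (hκ i).smooth), fun θ h0 => ?_⟩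
  have h1 : ∑ i, κ i θ = 1 := (sub_eq_zero.1 h0).symm
  have h2 := h θ
  rw [h1, norm_one] at h2
  norm_num at h2

theorem norm_lw_one_sub_sum (hκ : ∀ i, Good (κ i)) (h : ∀ θ, ‖∑ i, κ i θ‖ ≤ 1 / 2) (j : Fin n)
    (θ : Fin n → ℝ) :
    ‖lw (fun θ => 1 - ∑ i, κ i θ) j θ‖ ≤ 2 * ∑ i, ‖κ i θ‖ * ‖lw (κ i) j θ‖ := by
  have h1 : ∀ i, HasFDerivAt (κ i) (fderiv ℝ (κ i) θ) θ := fun i =>
    (((hκ i).smooth.differentiable (by norm_num)) θ).hasFDerivAt
  have h2 : fderiv ℝ (fun θ => 1 - ∑ i, κ i θ) θ = -∑ i, fderiv ℝ (κ i) θ := by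
    have h3 := (HasFDerivAt.fun_sum (u := Finset.univ) fun i _ => h1 i)
    exact (h3.const_sub (1 : ℂ)).fderiv
  have h4 : lw (fun θ => 1 - ∑ i, κ i θ) j θ =
      -(∑ i, κ i θ * lw (κ i) j θ) / (1 - ∑ i, κ i θ) := by
    unfold lw
    rw [h2]
    congr 1
    rw [neg_apply, sum_apply]
    congr 1
    refine Finset.sum_congr rfl fun i _ => ?_
    rw [mul_div_cancel₀ _ ((hκ i).ne_zero θ)]
  have h5 := norm_one_sub_ge (h θ)
  rw [h4, norm_div, norm_neg, div_le_iff₀ (by linarith)]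
  have h6 : ‖∑ i, κ i θ * lw (κ i) j θ‖ ≤ ∑ i, ‖κ i θ‖ * ‖lw (κ i) j θ‖ := by
    refine (norm_sum_le _ _).trans (Finset.sum_le_sum fun i _ => ?_)
    rw [norm_mul]
  have h7 : 0 ≤ ∑ i, ‖κ i θ‖ * ‖lw (κ i) j θ‖ := Finset.sum_nonneg fun i _ => by positivity
  nlinarith

end sum

end Pool.Agent.TH690.SF
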