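import Pool.Agent.TH690.SF.Unram
import Pool.Agent.TH826.DC.Tori
set_option autoImplicit false

/-!
Smoothness, evaluation of functions at complex points, and tori in the fibrations.
-/

namespace Pool.Agent.TH690.SF

open Pool.Agent.TH826.MK

open Pool.Agent.TH826.GA

open Pool.Agent.TH826.DC (dPhi eval_dPhi PhC)

section smooth

variable {K : Type*} [Field K] {d m : ℕ} {c : Fin (m + 1) → Fin (d + 1) → K}
  {a : Fin (m + 1) → K}

/-- the complex coefficients -/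
def cC (σ : K →+* ℂ) (c : Fin (m + 1) → Fin (d + 1) → K) : Fin (m + 1) → Fin (d + 1) → ℂ :=
  fun e j => σ (c e j)

theorem lf_cC (σ : K →+* ℂ) (e : Fin (m + 1)) :
    lf (cC σ c) (fun e => σ (a e)) e = MvPolynomial.map σ (lf c a e) := by
  unfold lf cC
  rw [map_sub, map_sum]
  simp only [map_mul, MvPolynomial.map_C, MvPolynomial.map_X]

theorem eval_pderiv_dPhi (σ : K →+* ℂ) (lam : K) (x : Fin (d + 1) → ℂ) (j : Fin (d + 1)) :
    MvPolynomial.eval₂ σ x (MvPolynomial.pderiv j (dPhi lam c a)) =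
      σ lam * MvPolynomial.eval₂ (RingHom.id ℂ) x
        (MvPolynomial.pderiv j (∏ e, lf (cC σ c) (fun e => σ (a e)) e)) := by
  have h1 : ∏ e, lf (cC σ c) (fun e => σ (a e)) e =
      MvPolynomial.map σ (∏ e, lf c a e) := by
    rw [map_prod]
    exact Finset.prod_congr rfl fun e _ => lf_cC σ e
  rw [h1, MvPolynomial.pderiv_map, MvPolynomial.eval₂_map, RingHom.id_comp]
  unfold dPhi
  rw [MvPolynomial.pderiv_C_mul, MvPolynomial.eval₂_mul, MvPolynomial.eval₂_C]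

/-- For large `λ`, the values of `Φ` at its critical points are large or zero. -/
theorem exists_noncrit (σ : K →+* ℂ)
    (hdet : ∀ T : Fin (d + 1) → Fin (m + 1), Function.Injective T → (cm c T).det ≠ 0)
    (hgen : ∀ S : Fin (d + 2) → Fin (m + 1), Function.Injective S → ∀ x : Fin (d + 1) → K,
      ∃ i, ∑ j, c (S i) j * x j ≠ a (S i)) (hm : d + 1 ≤ m) :
    ∃ C : ℝ, ∀ (lam : K) (w : ℂ), w ≠ 0 → C * ‖w‖ ≤ ‖σ lam‖ → ∀ x : Fin (d + 1) → ℂ,
      MvPolynomial.eval₂ σ x (dPhi lam c a) = w →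
      ∃ j, MvPolynomial.eval₂ σ x (MvPolynomial.pderiv j (dPhi lam c a)) ≠ 0 := by
  obtain ⟨δ, hδ, hδ1⟩ := exists_delta σ hdet hgen
  obtain ⟨C, hC⟩ := Pool.Agent.TH826.GA.exists_smooth (c := cC σ c) (a := fun e => σ (a e)) (RingHom.id ℂ)
    (fun T hT => by
      have h1 : cm (cC σ c) T = (cm c T).map σ := rfl
      have h2 : ((cm c T).map σ).det = σ (cm c T).det := (RingHom.map_det σ _).symm
      rw [h1, h2]
      exact (map_ne_zero σ).2 (hdet T hT))
    (fun S hS x => by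
      obtain ⟨i, hi⟩ := hδ1 x S hS
      refine ⟨i, fun h => ?_⟩
      have h1 : lc σ c a x (S i) = 0 := sub_eq_zero.2 h
      rw [h1, norm_zero] at hi
      linarith) hm
  refine ⟨C, fun lam w hw hlam x hx => ?_⟩
  have hw0 : 0 < ‖w‖ := norm_pos_iff.2 hw
  have hev : σ lam * ∏ e, lc σ c a x e = w := by rw [← eval_dPhi σ lam x, hx]
  have hlc : ∀ e, lc (RingHom.id ℂ) (cC σ c) (fun e => σ (a e)) x e = lc σ c a x e :=
    fun e => rfl
  obtain ⟨j, hj⟩ := hC (σ lam / w) (by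
    rw [RingHom.id_apply, norm_div, le_div_iff₀ hw0]
    exact hlam) x (by
    rw [eval_geqn]
    simp only [hlc, RingHom.id_apply]
    rw [div_mul_eq_mul_div, hev, div_self hw, sub_self])
  refine ⟨j, fun h0 => hj ?_⟩
  rw [eval_pderiv_dPhi] at h0
  unfold geqn
  rw [map_sub, MvPolynomial.pderiv_one, sub_zero, MvPolynomial.pderiv_C_mul,
    MvPolynomial.eval₂_mul, MvPolynomial.eval₂_C, RingHom.id_apply, div_mul_eq_mul_div, h0,
    zero_div]

/-- The hypersurfaces `Y z² + Y (y_1 + ... + y_q - Φ) z + 1 = 0`,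
`Y = y_1 ^ (w_1 + 1) ... y_q ^ (w_q + 1)`, are smooth for large `λ`. -/
theorem exists_smooth {q : ℕ} (w : Fin q → ℕ) (σ : K →+* ℂ)
    (hdet : ∀ T : Fin (d + 1) → Fin (m + 1), Function.Injective T → (cm c T).det ≠ 0)
    (hgen : ∀ S : Fin (d + 2) → Fin (m + 1), Function.Injective S → ∀ x : Fin (d + 1) → K,
      ∃ i, ∑ j, c (S i) j * x j ≠ a (S i)) (hm : d + 1 ≤ m) :
    ∃ C : ℝ, ∀ lam : K, C ≤ ‖σ lam‖ → ∀ (x : Fin (d + 1) → ℂ) (y : Fin q → ℂ) (z : ℂ),
      (∏ i, y i ^ (w i + 1)) * z ^ 2 +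
        (∏ i, y i ^ (w i + 1)) *
          (∑ i, y i - MvPolynomial.eval₂ σ x (dPhi lam c a)) * z + 1 = 0 →
      2 * (∏ i, y i ^ (w i + 1)) * z +
        (∏ i, y i ^ (w i + 1)) * (∑ i, y i - MvPolynomial.eval₂ σ x (dPhi lam c a)) ≠ 0 ∨
      (∃ k, (w k + 1) * y k ^ w k * (∏ i ∈ Finset.univ.erase k, y i ^ (w i + 1)) * (z ^ 2 +
        (∑ i, y i - MvPolynomial.eval₂ σ x (dPhi lam c a)) * z) +
          (∏ i, y i ^ (w i + 1)) * z ≠ 0) ∨
      ∃ j, -(∏ i, y i ^ (w i + 1)) *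
        MvPolynomial.eval₂ σ x (MvPolynomial.pderiv j (dPhi lam c a)) * z ≠ 0 := by
  obtain ⟨C, hC⟩ := exists_noncrit σ hdet hgen hm
  set w0 : ℕ := ∑ i, (w i + 1) with hw0
  refine ⟨|C| * (w0 + 2), fun lam hlam x y z heq => ?_⟩
  by_contra hcon
  push Not at hcon
  obtain ⟨h1, h2, h3⟩ := hcon
  set Φ : ℂ := MvPolynomial.eval₂ σ x (dPhi lam c a) with hΦdef
  set Y : ℂ := ∏ i, y i ^ (w i + 1) with hY
  have hYz : Y ≠ 0 ∧ z ≠ 0 := by
    constructor
    · intro h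
      rw [h] at heq
      norm_num at heq
    · intro h
      rw [h] at heq
      norm_num at heq
  obtain ⟨hY0, hz0⟩ := hYz
  have hYz2 : Y * z ^ 2 = 1 := by linear_combination z * h1 - heq
  have hyz : ∀ i, y i = (w i + 1) * z := by
    intro i
    have h4 := h2 i
    have h5 : y i ^ (w i + 1) * ∏ k ∈ Finset.univ.erase i, y k ^ (w k + 1) = Y :=
      Finset.mul_prod_erase Finset.univ (fun k => y k ^ (w k + 1)) (Finset.mem_univ i)
    rw [pow_succ] at h5
    have h6 : Y * z * (y i - (w i + 1) * z) = 0 := by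
      linear_combination y i * h4 - (w i + 1) * (z ^ 2 + (∑ i, y i - Φ) * z) * h5 -
        (w i + 1) * heq - (w i + 1) * hYz2
    rcases mul_eq_zero.1 h6 with h | h
    · exact absurd h (mul_ne_zero hY0 hz0)
    · exact sub_eq_zero.1 h
  have hYq : Y = ((∏ i, (w i + 1) ^ (w i + 1) : ℕ) : ℂ) * z ^ w0 := by
    rw [hY, hw0, Nat.cast_prod, ← Finset.prod_pow_eq_pow_sum, ← Finset.prod_mul_distrib]
    refine Finset.prod_congr rfl fun i _ => ?_
    rw [hyz, mul_pow]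
    push_cast
    rfl
  have hS : ∑ i, y i = w0 * z := by
    simp only [hyz]
    rw [← Finset.sum_mul, hw0]
    push_cast
    rfl
  have hnz : ‖z‖ ≤ 1 := by
    have h4 : ((∏ i, (w i + 1) ^ (w i + 1) : ℕ) : ℂ) * z ^ (w0 + 2) = 1 := by
      rw [pow_add, ← mul_assoc, ← hYq, hYz2]
    have h5 := congrArg norm h4
    rw [norm_mul, norm_pow, norm_one, Complex.norm_natCast] at h5
    have h6 : (1 : ℝ) ≤ ((∏ i, (w i + 1) ^ (w i + 1) : ℕ) : ℝ) := by
      exact_mod_cast Finset.one_le_prod' fun i _ => Nat.one_le_pow _ _ (Nat.succ_pos _)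
    by_contra hcon
    push Not at hcon
    have h7 : 1 < ‖z‖ ^ (w0 + 2) := one_lt_pow₀ hcon (by omega)
    nlinarith
  have hPhi : Φ = (w0 + 2) * z := by
    rw [hS] at h1
    have h4 : Y * (2 * z + (w0 * z - Φ)) = 0 := by linear_combination h1
    rcases mul_eq_zero.1 h4 with h | h
    · exact absurd h hY0
    · linear_combination -h
  have hq2 : (w0 + 2 : ℂ) ≠ 0 := by
    exact_mod_cast (show w0 + 2 ≠ 0 by omega)
  obtain ⟨j, hj⟩ := hC lam Φ (by rw [hPhi]; exact mul_ne_zero hq2 hz0) (by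
    rw [hPhi, norm_mul]
    have h4 : ‖(w0 + 2 : ℂ)‖ = w0 + 2 := by
      have h5 : (w0 + 2 : ℂ) = ((w0 + 2 : ℝ) : ℂ) := by push_cast; ring
      rw [h5, Complex.norm_real, Real.norm_eq_abs, abs_of_pos (by positivity)]
    rw [h4]
    refine le_trans ?_ hlam
    calc C * ((w0 + 2) * ‖z‖) ≤ |C| * ((w0 + 2) * ‖z‖) :=
          mul_le_mul_of_nonneg_right (le_abs_self C) (by positivity)
      _ ≤ |C| * ((w0 + 2) * 1) := by gcongr
      _ = |C| * (w0 + 2) := by ring) x rfl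
  have h4 := h3 j
  rw [mul_eq_zero, or_iff_left hz0, mul_eq_zero, neg_eq_zero, or_iff_right hY0] at h4
  exact hj h4

end smooth

section Ev

variable {K : Type*} [Field K] {d n m q : ℕ} {w : Fin q → ℕ} {σ : K →+* ℂ} {lam : K}
  {c : Fin (m + 1) → Fin (d + 1) → K} {a : Fin (m + 1) → K}

/-- The complex points of the hypersurface with `Φ ≠ 0`. -/
structure SPt (w : Fin q → ℕ) (σ : K →+* ℂ) (lam : K) (c : Fin (m + 1) → Fin (d + 1) → K) (a : Fin (m + 1) → K)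
    (x : Fin (d + 1) → ℂ) (y : Fin q → ℂ) (z : ℂ) : Prop where
  eq : (∏ i, y i ^ (w i + 1)) * z ^ 2 +
    (∏ i, y i ^ (w i + 1)) * (∑ i, y i - PhC σ lam c a x) * z + 1 = 0
  hPhi : PhC σ lam c a x ≠ 0

/-- the ring homomorphism on the polynomials in `x` and `y` -/
noncomputable def evR (σ : K →+* ℂ) (x : Fin (d + 1) → ℂ) (y : Fin q → ℂ) :
    MvPolynomial (Fin (d + 1) ⊕ Fin q) K →+* ℂ :=
  MvPolynomial.eval₂Hom σ (Sum.elim x y)

theorem evR_sPhi (x : Fin (d + 1) → ℂ) (y : Fin q → ℂ) :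
    evR σ x y (sPhi q lam c a) = PhC σ lam c a x := by
  unfold evR sPhi
  rw [MvPolynomial.coe_eval₂Hom, MvPolynomial.eval₂_rename]
  exact eval_dPhi σ lam x

theorem evR_rename (x : Fin (d + 1) → ℂ) (y : Fin q → ℂ) (p : MvPolynomial (Fin (d + 1)) K) :
    evR σ x y (MvPolynomial.rename Sum.inl p) = MvPolynomial.eval₂ σ x p := by
  unfold evR
  rw [MvPolynomial.coe_eval₂Hom, MvPolynomial.eval₂_rename]
  rfl

theorem evR_y (x : Fin (d + 1) → ℂ) (y : Fin q → ℂ) (i : Fin q) :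
    evR σ x y (MvPolynomial.X (Sum.inr i)) = y i := by
  unfold evR
  rw [MvPolynomial.coe_eval₂Hom, MvPolynomial.eval₂_X]
  rfl

theorem SPt.eval_eS {x : Fin (d + 1) → ℂ} {y : Fin q → ℂ} {z : ℂ} (hx : SPt w σ lam c a x y z) :
    Polynomial.eval₂ (evR σ x y) z (eS w lam c a) = 0 := by
  unfold eS
  simp only [Polynomial.eval₂_add, Polynomial.eval₂_mul,
    Polynomial.eval₂_pow, Polynomial.eval₂_X, Polynomial.eval₂_C, Polynomial.eval₂_one]
  rw [map_mul, map_sub, evR_sPhi]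
  unfold sY sS
  rw [map_prod, map_sum]
  simp only [map_pow, evR_y]
  exact hx.eq

/-- evaluation of the regular functions on the hypersurface -/
noncomputable def SPt.evB {x : Fin (d + 1) → ℂ} {y : Fin q → ℂ} {z : ℂ}
    (hx : SPt w σ lam c a x y z) : SRing w lam c a →+* ℂ :=
  AdjoinRoot.lift (evR σ x y) z hx.eval_eS

theorem SPt.evB_sof {x : Fin (d + 1) → ℂ} {y : Fin q → ℂ} {z : ℂ} (hx : SPt w σ lam c a x y z)
    (p : MvPolynomial (Fin (d + 1) ⊕ Fin q) K) :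
    hx.evB (sof w lam c a p) = evR σ x y p :=
  AdjoinRoot.lift_of hx.eval_eS

theorem SPt.evB_spol {x : Fin (d + 1) → ℂ} {y : Fin q → ℂ} {z : ℂ} (hx : SPt w σ lam c a x y z)
    (p : MvPolynomial (Fin (d + 1)) K) :
    hx.evB (spol w lam c a p) = MvPolynomial.eval₂ σ x p := by
  show hx.evB (sof w lam c a (MvPolynomial.rename Sum.inl p)) = _
  rw [hx.evB_sof, evR_rename]

theorem SPt.evB_sy {x : Fin (d + 1) → ℂ} {y : Fin q → ℂ} {z : ℂ} (hx : SPt w σ lam c a x y z)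
    (i : Fin q) : hx.evB (sy w lam c a i) = y i := by
  show hx.evB (sof w lam c a (MvPolynomial.X (Sum.inr i))) = _
  rw [hx.evB_sof, evR_y]

theorem SPt.evB_mk {x : Fin (d + 1) → ℂ} {y : Fin q → ℂ} {z : ℂ} (hx : SPt w σ lam c a x y z)
    (p : Polynomial (MvPolynomial (Fin (d + 1) ⊕ Fin q) K)) :
    hx.evB (AdjoinRoot.mk (eS w lam c a) p : AdjoinRoot (eS w lam c a)) =
      p.eval₂ (evR σ x y) z :=
  AdjoinRoot.lift_mk hx.eval_eS p

theorem SPt.evB_sz {x : Fin (d + 1) → ℂ} {y : Fin q → ℂ} {z : ℂ} (hx : SPt w σ lam c a x y z) :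
    hx.evB (sz w lam c a) = z :=
  AdjoinRoot.lift_root hx.eval_eS

theorem SPt.evB_ne {x : Fin (d + 1) → ℂ} {y : Fin q → ℂ} {z : ℂ} (hx : SPt w σ lam c a x y z) :
    hx.evB (spol w lam c a (dPhi lam c a)) ≠ 0 := by
  rw [hx.evB_spol]
  have e : MvPolynomial.eval₂ σ x (dPhi lam c a) = PhC σ lam c a x := eval_dPhi σ lam x
  rw [e]
  exact hx.hPhi

/-- evaluation of the regular functions on the open part -/
noncomputable def SPt.evA {x : Fin (d + 1) → ℂ} {y : Fin q → ℂ} {z : ℂ}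
    (hx : SPt w σ lam c a x y z) : SOpen w lam c a →+* ℂ :=
  liftS hx.evB hx.evB_ne

theorem SPt.evA_toS {x : Fin (d + 1) → ℂ} {y : Fin q → ℂ} {z : ℂ} (hx : SPt w σ lam c a x y z)
    (b : SRing w lam c a) : hx.evA (toS w lam c a b) = hx.evB b :=
  liftS_toS _ _ _

theorem SPt.evA_congr {x x' : Fin (d + 1) → ℂ} {y y' : Fin q → ℂ} {z z' : ℂ}
    (hx : SPt w σ lam c a x y z) (hx' : SPt w σ lam c a x' y' z') (h : x = x') (h' : y = y')
    (h'' : z = z') : hx.evA = hx'.evA := by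
  subst h
  subst h'
  subst h''
  rfl

theorem SPt.evA_scst {x : Fin (d + 1) → ℂ} {y : Fin q → ℂ} {z : ℂ} (hx : SPt w σ lam c a x y z)
    (u : K) : hx.evA (scst w lam c a u) = σ u := by
  show hx.evA (toS w lam c a (spol w lam c a (MvPolynomial.C u))) = _
  rw [hx.evA_toS, hx.evB_spol, MvPolynomial.eval₂_C]

theorem SPt.evA_uz {x : Fin (d + 1) → ℂ} {y : Fin q → ℂ} {z : ℂ} (hx : SPt w σ lam c a x y z) :
    hx.evA (uz w lam c a : SOpen w lam c a) = z := by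
  rw [coe_uz, hx.evA_toS, hx.evB_sz]

theorem SPt.evA_uy {x : Fin (d + 1) → ℂ} {y : Fin q → ℂ} {z : ℂ} (hx : SPt w σ lam c a x y z)
    (i : Fin q) : hx.evA (uy w lam c a i : SOpen w lam c a) = y i := by
  rw [coe_uy, hx.evA_toS, hx.evB_sy]

theorem SPt.evA_su {x : Fin (d + 1) → ℂ} {y : Fin q → ℂ} {z : ℂ} (hx : SPt w σ lam c a x y z)
    (e : Fin (m + 1)) : hx.evA (su w lam c a e : SOpen w lam c a) = lc σ c a x e := by
  rw [coe_su, hx.evA_toS, hx.evB_spol]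
  exact eval_lf σ x e

theorem contDiff_evA {x : (Fin n → ℝ) → (Fin (d + 1) → ℂ)} {y : (Fin n → ℝ) → (Fin q → ℂ)}
    {z : (Fin n → ℝ) → ℂ}
    (hc : ContDiff ℝ 2 x) (hyc : ContDiff ℝ 2 y) (hz : ContDiff ℝ 2 z)
    (hx : ∀ θ, SPt w σ lam c a (x θ) (y θ) (z θ)) (h : SOpen w lam c a) :
    ContDiff ℝ 2 fun θ => (hx θ).evA h := by
  have hxk : ∀ k, ContDiff ℝ 2 fun θ => Sum.elim (x θ) (y θ) k := by
    intro k
    rcases k with k | k
    · exact contDiff_pi.1 hc k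
    · exact contDiff_pi.1 hyc k
  have hR : ∀ p : MvPolynomial (Fin (d + 1) ⊕ Fin q) K,
      ContDiff ℝ 2 fun θ => evR σ (x θ) (y θ) p := by
    intro p
    induction p using MvPolynomial.induction_on with
    | C c => simpa [evR] using contDiff_const
    | add p q hp hq => simpa using hp.add hq
    | mul_X p k hp =>
      have e : (fun θ => evR σ (x θ) (y θ) (p * MvPolynomial.X k)) =
          fun θ => evR σ (x θ) (y θ) p * Sum.elim (x θ) (y θ) k := by
        funext θ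
        rw [map_mul]
        congr 1
        exact MvPolynomial.eval₂_X _ _ _
      rw [e]
      exact hp.mul (hxk k)
  have hB : ∀ b : SRing w lam c a, ContDiff ℝ 2 fun θ => (hx θ).evB b := by
    intro b
    obtain ⟨p, hp⟩ := AdjoinRoot.mk_surjective (g := eS w lam c a) b
    have e : (fun θ => (hx θ).evB b) = fun θ =>
        ∑ i ∈ Finset.range (p.natDegree + 1), evR σ (x θ) (y θ) (p.coeff i) * (z θ) ^ i := by
      funext θ
      rw [← hp, (hx θ).evB_mk, Polynomial.eval₂_eq_sum_range]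
    rw [e]
    exact ContDiff.sum fun i _ => (hR _).mul (hz.pow i)
  obtain ⟨p, hp⟩ := AdjoinRoot.mk_surjective (g := sqnT w lam c a) h
  have e : (fun θ => (hx θ).evA h) = fun θ =>
      ∑ i ∈ Finset.range (p.natDegree + 1), (hx θ).evB (p.coeff i) *
        ((hx θ).evB (spol w lam c a (dPhi lam c a)))⁻¹ ^ i := by
    funext θ
    rw [← hp]
    unfold SPt.evA
    rw [liftS_mk, Polynomial.eval₂_eq_sum_range]
  rw [e]
  exact ContDiff.sum fun i _ => (hB _).mul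
    (((hB _).inv fun θ => (hx θ).evB_ne).pow i)

/-- a torus in the hypersurface -/
noncomputable def mkS (x : (Fin n → ℝ) → (Fin (d + 1) → ℂ)) (y : (Fin n → ℝ) → (Fin q → ℂ))
    (z : (Fin n → ℝ) → ℂ) (hc : ContDiff ℝ 2 x) (hyc : ContDiff ℝ 2 y) (hzc : ContDiff ℝ 2 z)
    (hp : ∀ θ i, x (θ + Pi.single i 1) = x θ) (hyp : ∀ θ i, y (θ + Pi.single i 1) = y θ)
    (hzp : ∀ θ i, z (θ + Pi.single i 1) = z θ)
    (hx : ∀ θ, SPt w σ lam c a (x θ) (y θ) (z θ)) : Torus (SOpen w lam c a) n where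
  e θ := (hx θ).evA
  smooth h := contDiff_evA hc hyc hzc hx h
  periodic θ i := SPt.evA_congr _ _ (hp θ i) (hyp θ i) (hzp θ i)

variable (x : (Fin n → ℝ) → (Fin (d + 1) → ℂ)) (y : (Fin n → ℝ) → (Fin q → ℂ))
    (z : (Fin n → ℝ) → ℂ) (hc : ContDiff ℝ 2 x) (hyc : ContDiff ℝ 2 y) (hzc : ContDiff ℝ 2 z)
    (hp : ∀ θ i, x (θ + Pi.single i 1) = x θ) (hyp : ∀ θ i, y (θ + Pi.single i 1) = y θ)
    (hzp : ∀ θ i, z (θ + Pi.single i 1) = z θ)
    (hx : ∀ θ, SPt w σ lam c a (x θ) (y θ) (z θ))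

theorem mkS_sg (S : Fin (d + 2) → Fin (m + 1)) (i : Fin (d + 2)) (hγ : gam c S i ≠ 0) :
    (mkS x y z hc hyc hzc hp hyp hzp hx).fn (sg w lam c a S i : SOpen w lam c a) =
      fun θ => σ (gam c S i) * lc σ c a (x θ) (S i) := by
  funext θ
  show (hx θ).evA (sg w lam c a S i : SOpen w lam c a) = _
  unfold sg
  rw [Units.val_mul, map_mul, SPt.evA_su, Units.coe_map]
  congr 1
  show (hx θ).evA (scst w lam c a (ku (gam c S i) : K)) = _
  rw [SPt.evA_scst, coe_ku hγ]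

theorem mkS_uz : (mkS x y z hc hyc hzc hp hyp hzp hx).fn (uz w lam c a : SOpen w lam c a) =
      z := by
  funext θ
  exact (hx θ).evA_uz

theorem mkS_uy (i : Fin q) :
    (mkS x y z hc hyc hzc hp hyp hzp hx).fn (uy w lam c a i : SOpen w lam c a) =
      fun θ => y θ i := by
  funext θ
  exact (hx θ).evA_uy i

end Ev

end Pool.Agent.TH690.SF
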