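import Pool.Agent.TH690.SF.Branch
import Pool.Agent.TH690.SF.Tori
set_option autoImplicit false

/-!
The matrices of the orders of the entries at the vertices of the arrangement.
-/

namespace Pool.Agent.TH690.SF

open Pool.Agent.TH826.MK

open Pool.Agent.TH826.GA

open Pool.Agent.TH826.DC (dPhi PhC xw lc_xw contDiff_xw contDiff_lcw wT RM det_RM)

section main

variable {K : Type*} [Field K] {d m : ℕ} (q : ℕ)

/-- the coordinates at the vertex `T` and the coordinates `y` -/
def TS (T : Fin (d + 1) → Fin (m + 1)) : Fin (d + 1 + q) → Fin (m + 1) ⊕ Fin q :=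
  Fin.append (fun j => Sum.inl (T j)) fun i => Sum.inr i

theorem TS_castAdd (T : Fin (d + 1) → Fin (m + 1)) (j : Fin (d + 1)) :
    TS q T (Fin.castAdd q j) = Sum.inl (T j) := by
  unfold TS
  rw [Fin.append_left]

theorem TS_natAdd (T : Fin (d + 1) → Fin (m + 1)) (i : Fin q) :
    TS q T (Fin.natAdd (d + 1) i) = Sum.inr i := by
  unfold TS
  rw [Fin.append_right]

theorem TS_injective {T : Fin (d + 1) → Fin (m + 1)} (hT : Function.Injective T) :
    Function.Injective (TS q T) := by
  intro k l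
  refine Fin.addCases (fun k => ?_) (fun k => ?_) k <;>
    refine Fin.addCases (fun l => ?_) (fun l => ?_) l
  · rw [TS_castAdd, TS_castAdd]
    intro h
    rw [hT (Sum.inl_injective h)]
  · rw [TS_castAdd, TS_natAdd]
    intro h
    exact absurd h (by simp)
  · rw [TS_castAdd, TS_natAdd]
    intro h
    exact absurd h (by simp)
  · rw [TS_natAdd, TS_natAdd]
    intro h
    rw [Sum.inr_injective h]

/-- the functions -/
noncomputable def HS (σ : K →+* ℂ) (c : Fin (m + 1) → Fin (d + 1) → K) (a : Fin (m + 1) → K)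
    (T : Fin (d + 1) → Fin (m + 1)) (e : Fin (m + 1) ⊕ Fin q) (w : Fin (d + 1 + q) → ℂ) : ℂ :=
  Sum.elim (fun e => lc σ c a (xw σ c a T fun j => w (Fin.castAdd q j)) e)
    (fun i => w (Fin.natAdd (d + 1) i)) e

/-- the winding numbers of `Φ` -/
noncomputable def om (d q : ℕ) : Fin (d + 1 + q) → ℝ := Fin.append (fun _ => 1) fun _ => 0

/-- the matrix of the orders of the entries at the vertex `T` -/
noncomputable def RS (T : Fin (d + 1) → Fin (m + 1)) (S : Fin (d + 2) → Fin (m + 1)) :
    Matrix (Fin (d + 1 + q + 1)) (Fin (d + 1 + q + 1)) ℝ :=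
  Matrix.of (Fin.cons (Fin.cons 1 (om d q)) (Fin.append
    (fun k : Fin (d + 1) => (Fin.cons 0 fun j => wT (TS q T) (Sum.inl (S k.succ)) j -
      wT (TS q T) (Sum.inl (S 0)) j : Fin (d + 1 + q + 1) → ℝ))
    (fun i : Fin q => (Fin.cons 0 fun j => if j = Fin.natAdd (d + 1) i then 1 else 0 :
      Fin (d + 1 + q + 1) → ℝ))))

theorem wT_castAdd (T : Fin (d + 1) → Fin (m + 1)) (e : Fin (m + 1)) (j : Fin (d + 1)) :
    wT (TS q T) (Sum.inl e) (Fin.castAdd q j) = wT T e j := by
  unfold wT
  rw [TS_castAdd]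
  by_cases h : T j = e
  · rw [if_pos h, if_pos (by rw [h])]
  · rw [if_neg h, if_neg fun h' => h (Sum.inl_injective h')]

theorem wT_natAdd (T : Fin (d + 1) → Fin (m + 1)) (e : Fin (m + 1)) (i : Fin q) :
    wT (TS q T) (Sum.inl e) (Fin.natAdd (d + 1) i) = 0 := by
  unfold wT
  rw [TS_natAdd, if_neg]
  simp

theorem sum_wT (T : Fin (d + 1) → Fin (m + 1)) (j : Fin (d + 1 + q)) :
    ∑ e : Fin (m + 1), wT (TS q T) (Sum.inl e) j = om d q j := by
  refine Fin.addCases (fun j => ?_) (fun i => ?_) j
  · simp only [wT_castAdd]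
    unfold om
    rw [Fin.append_left, Finset.sum_eq_single (T j)]
    · unfold wT
      rw [if_pos rfl]
    · intro e _ he
      unfold wT
      rw [if_neg (Ne.symm he)]
    · intro h
      exact absurd (Finset.mem_univ _) h
  · simp only [wT_natAdd]
    unfold om
    rw [Fin.append_right, Finset.sum_const_zero]

theorem RS_row_u (T : Fin (d + 1) → Fin (m + 1)) (S : Fin (d + 2) → Fin (m + 1))
    (k : Fin (d + 1)) : RS q T S (Fin.castAdd q k).succ =
      (Fin.cons 0 fun j => wT (TS q T) (Sum.inl (S k.succ)) j -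
      wT (TS q T) (Sum.inl (S 0)) j : Fin (d + 1 + q + 1) → ℝ) :=
  Fin.append_left (fun k : Fin (d + 1) => (Fin.cons 0 fun j =>
      wT (TS q T) (Sum.inl (S k.succ)) j - wT (TS q T) (Sum.inl (S 0)) j :
      Fin (d + 1 + q + 1) → ℝ))
    (fun i : Fin q => (Fin.cons 0 fun j => if j = Fin.natAdd (d + 1) i then 1 else 0 :
      Fin (d + 1 + q + 1) → ℝ)) k

theorem RS_row_y (T : Fin (d + 1) → Fin (m + 1)) (S : Fin (d + 2) → Fin (m + 1))
    (i : Fin q) : RS q T S (Fin.natAdd (d + 1) i).succ =
      (Fin.cons 0 fun j => if j = Fin.natAdd (d + 1) i then 1 else 0 :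
      Fin (d + 1 + q + 1) → ℝ) :=
  Fin.append_right (fun k : Fin (d + 1) => (Fin.cons 0 fun j =>
      wT (TS q T) (Sum.inl (S k.succ)) j - wT (TS q T) (Sum.inl (S 0)) j :
      Fin (d + 1 + q + 1) → ℝ))
    (fun i : Fin q => (Fin.cons 0 fun j => if j = Fin.natAdd (d + 1) i then 1 else 0 :
      Fin (d + 1 + q + 1) → ℝ)) i

theorem det_RS (T : Fin (d + 1) → Fin (m + 1)) (S : Fin (d + 2) → Fin (m + 1)) :
    (RS q T S).det = (RM T S).det := by
  classical
  set A : Matrix (Fin (d + 1)) (Fin (d + 1)) ℝ :=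
    Matrix.of fun k j => wT T (S k.succ) j - wT T (S 0) j with hA
  have h1 : (RM T S).det = A.det := by
    rw [Matrix.det_succ_column_zero, Fin.sum_univ_succ]
    have h2 : ∀ k : Fin (d + 1), RM T S k.succ 0 = 0 := fun k => rfl
    have h3 : RM T S 0 0 = 1 := rfl
    simp only [h2, h3, mul_zero, zero_mul, Finset.sum_const_zero, add_zero, Fin.val_zero,
      pow_zero, mul_one, one_mul]
    congr 1
  set M : Matrix (Fin (d + 1 + q)) (Fin (d + 1 + q)) ℝ := Matrix.of (Fin.append
    (fun k : Fin (d + 1) => fun j => wT (TS q T) (Sum.inl (S k.succ)) j -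
      wT (TS q T) (Sum.inl (S 0)) j)
    (fun i : Fin q => fun j => if j = Fin.natAdd (d + 1) i then 1 else 0)) with hM
  have hrow1 := RS_row_u q T S
  have hrow2 := RS_row_y q T S
  have h4 : (RS q T S).det = M.det := by
    rw [Matrix.det_succ_column_zero, Fin.sum_univ_succ]
    have h2 : ∀ k : Fin (d + 1 + q), RS q T S k.succ 0 = 0 := by
      intro k
      refine Fin.addCases (fun k => ?_) (fun k => ?_) k
      · rw [hrow1, Fin.cons_zero]
      · rw [hrow2, Fin.cons_zero]
    have h3 : RS q T S 0 0 = 1 := rfl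
    simp only [h2, h3, mul_zero, zero_mul, Finset.sum_const_zero, add_zero, Fin.val_zero,
      pow_zero, mul_one, one_mul]
    congr 1
    ext k j
    rw [Matrix.submatrix_apply, Fin.succAbove_zero]
    refine Fin.addCases (fun k => ?_) (fun k => ?_) k
    · rw [hrow1, Fin.cons_succ, hM, Matrix.of_apply, Fin.append_left]
    · rw [hrow2, Fin.cons_succ, hM, Matrix.of_apply, Fin.append_right]
  have h5 : M.submatrix finSumFinEquiv finSumFinEquiv = Matrix.fromBlocks A 0 0 1 := by
    ext k j
    rw [Matrix.submatrix_apply]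
    rcases k with k | k <;> rcases j with j | j
    · rw [finSumFinEquiv_apply_left, finSumFinEquiv_apply_left, Matrix.fromBlocks_apply₁₁, hM,
        Matrix.of_apply, Fin.append_left, wT_castAdd, wT_castAdd]
      rfl
    · rw [finSumFinEquiv_apply_left, finSumFinEquiv_apply_right, Matrix.fromBlocks_apply₁₂, hM,
        Matrix.of_apply, Fin.append_left, wT_natAdd, wT_natAdd, sub_zero]
      rfl
    · rw [finSumFinEquiv_apply_left, finSumFinEquiv_apply_right, Matrix.fromBlocks_apply₂₁, hM,
        Matrix.of_apply, Fin.append_right, if_neg]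
      · rfl
      · intro h
        have h6 := congrArg Fin.val h
        rw [Fin.val_castAdd, Fin.val_natAdd] at h6
        have h7 := j.isLt
        omega
    · rw [finSumFinEquiv_apply_right, finSumFinEquiv_apply_right, Matrix.fromBlocks_apply₂₂, hM,
        Matrix.of_apply, Fin.append_right, Matrix.one_apply]
      by_cases h : k = j
      · rw [if_pos h, if_pos (by rw [h])]
      · rw [if_neg h, if_neg fun h' => h (Fin.natAdd_injective _ _ h').symm]
  rw [h1, h4, ← Matrix.det_submatrix_equiv_self finSumFinEquiv M, h5, Matrix.det_fromBlocks_zero₂₁,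
    Matrix.det_one, mul_one]

end main

end Pool.Agent.TH690.SF
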