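import Pool.Agent.TH690.SF.Det
set_option autoImplicit false

/-!
The regulators of the symbols of the simplices on the fibrations, for large `λ`.
-/

namespace Pool.Agent.TH690.SF

open Filter Topology

open Pool.Agent.TH826.MK

open Pool.Agent.TH826.GA

open Pool.Agent.TH826.SX (good_circ lw_circ det_ne_zero_near pairing_close)

open Pool.Agent.TH826.DC (dPhi PhC xw lc_xw contDiff_xw contDiff_lcw wT RM det_RM)

open Pool.Agent.TH826.EF (norm_one_sub_ge abs_log_one_sub)

section main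

variable {K : Type*} [Field K] {d m : ℕ} {q : ℕ} {w : Fin q → ℕ}
  {c : Fin (m + 1) → Fin (d + 1) → K}
  {a : Fin (m + 1) → K}

theorem exists_torus (σ : K →+* ℂ)
    (hdet : ∀ T : Fin (d + 1) → Fin (m + 1), Function.Injective T → (cm c T).det ≠ 0)
    (hgen : ∀ S : Fin (d + 2) → Fin (m + 1), Function.Injective S → ∀ x : Fin (d + 1) → K,
      ∃ i, ∑ j, c (S i) j * x j ≠ a (S i))
    {T : Fin (d + 1) → Fin (m + 1)} (hT : Function.Injective T) {ε : ℝ} (hε : 0 < ε) :
    ∃ Λ : ℝ, 1 < Λ ∧ ∀ lam : K, Λ ≤ ‖σ lam‖ → ∃ Γ : Torus (SOpen w lam c a) (d + 1 + q),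
      (∀ θ x, Γ.e θ (scst w lam c a x) = σ x) ∧
      ∀ S : Fin (d + 2) → Fin (m + 1), Function.Injective S →
        |Γ.reg (symb (sent w lam c a S)) / Real.log ‖σ lam‖ -
          (2 * Real.pi) ^ (d + 1 + q) * (RS q T S).det| ≤ ε := by
  classical
  choose δ hδ hclose using fun S : Fin (d + 2) → Fin (m + 1) => pairing_close (RS q T S) hε
  obtain ⟨S0, -, hS0⟩ := Finset.exists_min_image Finset.univ δ
    ⟨fun _ => 0, Finset.mem_univ _⟩
  set δ0 : ℝ := δ S0 / (m + 5) with hδ0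
  have hm5 : (0 : ℝ) < m + 5 := by positivity
  have hδ0pos : 0 < δ0 := div_pos (hδ S0) hm5
  have hδle : ∀ S, (m + 4) * δ0 < δ S := by
    intro S
    have h1 := hS0 S (Finset.mem_univ S)
    have h2 : δ S0 = (m + 5) * δ0 := by
      rw [hδ0]
      field_simp
    linarith
  have hm0 : (0 : ℝ) ≤ m := Nat.cast_nonneg m
  have hq0 : (0 : ℝ) ≤ q := Nat.cast_nonneg q
  obtain ⟨C1, ρ, hC1, hρ, hρ2, hWg, hWest⟩ := Pool.Agent.TH826.EF.exists_circles (T := TS q T)
    (H := HS q σ c a T)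
    (TS_injective q hT)
    (fun e => by
      rcases e with e | i
      · exact (contDiff_lcw σ T e).comp
          (contDiff_pi.2 fun j : Fin (d + 1) => contDiff_apply ℂ ℂ (Fin.castAdd q j))
      · exact contDiff_apply ℂ ℂ (Fin.natAdd (d + 1) i))
    (fun j u => by
      refine Fin.addCases (fun j => ?_) (fun i => ?_) j
      · rw [TS_castAdd]
        show lc σ c a (xw σ c a T fun j => u (Fin.castAdd q j)) (T j) = _
        rw [lc_xw, be_T T (hdet T hT)]
        simp only [al_T T (hdet T hT)]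
        simp
      · rw [TS_natAdd]
        rfl)
    (fun e he => by
      rcases e with e | i
      · have he' : ∀ j, T j ≠ e := fun j h => he (Fin.castAdd q j) (by rw [TS_castAdd, h])
        show lc σ c a (xw σ c a T fun j => (0 : Fin (d + 1 + q) → ℂ) (Fin.castAdd q j)) e ≠ 0
        rw [lc_xw]
        simp only [Pi.zero_apply, mul_zero, Finset.sum_const_zero, zero_add]
        exact (map_ne_zero σ).2 (be_ne hdet hgen hT he')
      · exact absurd (TS_natAdd q T i) (he (Fin.natAdd (d + 1) i))) hδ0pos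
  set G : ℝ := ∑ S : Fin (d + 2) → Fin (m + 1), ∑ i, |Real.log ‖σ (gam c S i)‖| with hG
  have hG0 : 0 ≤ G := Finset.sum_nonneg fun S _ => Finset.sum_nonneg fun i _ => abs_nonneg _
  have hGS : ∀ S i, |Real.log ‖σ (gam c S i)‖| ≤ G := fun S i =>
    (Finset.single_le_sum (f := fun i => |Real.log ‖σ (gam c S i)‖|)
      (fun i _ => abs_nonneg _) (Finset.mem_univ i)).trans
    (Finset.single_le_sum (f := fun S => ∑ i, |Real.log ‖σ (gam c S i)‖|)
      (fun S _ => Finset.sum_nonneg fun i _ => abs_nonneg _) (Finset.mem_univ S))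
  have hpi := Real.pi_pos
  have hnpi : ‖(2 * Real.pi * Complex.I : ℂ)‖ = 2 * Real.pi := by
    rw [norm_mul, norm_mul, Complex.norm_I, Complex.norm_real, Complex.norm_ofNat, mul_one,
      Real.norm_eq_abs, abs_of_pos Real.pi_pos]
  set E : ℝ := 2 * Real.pi + (m + 1) * δ0 with hE
  have hE0 : 0 < E := by positivity
  set w0 : ℕ := ∑ i, (w i + 1) with hw0
  set R : ℝ := (ρ ^ w0)⁻¹ with hR
  have hR0 : 0 < R := by positivity
  set N : ℝ := w0 * (2 * Real.pi) + 2 * (E + δ0) with hN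
  have hN0 : 0 < N := by positivity
  set B : ℝ := 8 + 64 * R + 2 * q + 2 * q * (2 * Real.pi + E) / δ0 + 8 * R * N / δ0 with hB
  have hBa : 0 ≤ 2 * q * (2 * Real.pi + E) / δ0 := by positivity
  have hBb : 0 ≤ 8 * R * N / δ0 := by positivity
  have hB8 : 8 ≤ B := by
    rw [hB]
    linarith
  have hBR : 64 * R ≤ B := by
    rw [hB]
    linarith
  have hBq : 2 * q ≤ B := by
    rw [hB]
    linarith
  have hBpos : 0 < B := by linarith
  have hBE : 2 * (4 * R / B ^ 2) * N ≤ δ0 := by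
    have h1 : 8 * R * N / δ0 ≤ B := by
      rw [hB]
      linarith
    rw [div_le_iff₀ hδ0pos] at h1
    have h2 : 2 * (4 * R / B ^ 2) * N = 8 * R * N / B ^ 2 := by ring
    rw [h2, div_le_iff₀ (by positivity)]
    have h3 : B * δ0 * 1 ≤ B * δ0 * B := mul_le_mul_of_nonneg_left (by linarith) (by positivity)
    nlinarith
  have hBe : 4 * R / B ^ 2 ≤ 1 / 16 := by
    rw [div_le_div_iff₀ (by positivity) (by norm_num)]
    nlinarith
  have hBk : 2 * (q * (1 / B * (2 * Real.pi + E))) ≤ δ0 := by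
    have h1 : 2 * q * (2 * Real.pi + E) / δ0 ≤ B := by
      rw [hB]
      linarith
    rw [div_le_iff₀ hδ0pos] at h1
    have h2 : 2 * (q * (1 / B * (2 * Real.pi + E))) = 2 * q * (2 * Real.pi + E) / B := by ring
    rw [h2, div_le_iff₀ hBpos]
    linarith
  have hlogB : 0 ≤ Real.log B := Real.log_nonneg (by linarith)
  set M : ℝ := (m + 1) * C1 + Real.log B + ((m + 1) * C1 + 2) / δ0 + (G + C1) / δ0 + 1 with hM
  have hM1 : 0 ≤ ((m + 1) * C1 + 2) / δ0 := by positivity
  have hM2 : 0 ≤ (G + C1) / δ0 := by positivity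
  have hM3 : 0 ≤ (m + 1) * C1 := by positivity
  refine ⟨Real.exp M + 1, by linarith [Real.exp_pos M], fun lam hlam => ?_⟩
  have hln : 0 < ‖σ lam‖ := by linarith [Real.exp_pos M]
  have hl0 : σ lam ≠ 0 := norm_pos_iff.1 hln
  set s : ℝ := Real.log ‖σ lam‖ with hsdef
  have hsM : M ≤ s := by
    rw [hsdef, Real.le_log_iff_exp_le hln]
    linarith
  have hspos : 0 < s := by linarith
  have hs0 : s ≠ 0 := hspos.ne'
  set W : (Fin (d + 1 + q) → ℝ) → (Fin (d + 1 + q) → ℂ) := fun θ k => circ ρ (θ k) with hW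
  have hWc : ContDiff ℝ 2 W := contDiff_pi.2 fun k => (good_circ hρ k).smooth
  have hWp : ∀ θ i, W (θ + Pi.single i 1) = W θ := fun θ i =>
    tpt_add_single (fun _ => ρ) θ i
  set X : (Fin (d + 1 + q) → ℝ) → (Fin (d + 1) → ℂ) := fun θ =>
    xw σ c a T fun j => W θ (Fin.castAdd q j) with hXdef
  have hXc : ContDiff ℝ 2 X := ((contDiff_xw σ T).restrict_scalars ℝ).comp
    (contDiff_pi.2 fun j : Fin (d + 1) => contDiff_pi.1 hWc (Fin.castAdd q j))
  have hXp : ∀ θ i, X (θ + Pi.single i 1) = X θ := fun θ i => by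
    simp only [hXdef, hWp]
  set y : (Fin (d + 1 + q) → ℝ) → (Fin q → ℂ) := fun θ i => W θ (Fin.natAdd (d + 1) i) with hy
  have hyc : ContDiff ℝ 2 y :=
    contDiff_pi.2 fun i : Fin q => contDiff_pi.1 hWc (Fin.natAdd (d + 1) i)
  have hyp : ∀ θ i, y (θ + Pi.single i 1) = y θ := fun θ i => by
    simp only [hy, hWp]
  have hyg : ∀ i, Good fun θ => y θ i := fun i => good_circ hρ (Fin.natAdd (d + 1) i)
  have hny : ∀ θ i, ‖y θ i‖ = ρ := fun θ i => norm_circ hρ.le _
  have hlwy : ∀ i j θ, lw (fun θ => y θ i) j θ =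
      if j = Fin.natAdd (d + 1) i then 2 * Real.pi * Complex.I else 0 := fun i j θ =>
    lw_circ hρ (Fin.natAdd (d + 1) i) j θ
  have hnlwy : ∀ i j θ, ‖lw (fun θ => y θ i) j θ‖ ≤ 2 * Real.pi := by
    intro i j θ
    rw [hlwy]
    split_ifs
    · exact hnpi.le
    · rw [norm_zero]
      positivity
  have hg : ∀ e, Good fun θ => lc σ c a (X θ) e := fun e => hWg (Sum.inl e)
  have hlogH : ∀ e θ, |Real.log ‖lc σ c a (X θ) e‖| ≤ C1 := fun e θ => (hWest (Sum.inl e) θ).1
  have hlwH : ∀ e θ j, ‖lw (fun θ => lc σ c a (X θ) e) j θ -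
      2 * Real.pi * Complex.I * wT (TS q T) (Sum.inl e) j‖ ≤ δ0 := fun e θ j =>
    (hWest (Sum.inl e) θ).2 j
  have hlogy : ∀ i θ, |Real.log ‖y θ i‖| ≤ C1 := fun i θ => (hWest (Sum.inr i) θ).1
  -- the function `Φ`
  set F : (Fin (d + 1 + q) → ℝ) → ℂ := fun θ => PhC σ lam c a (X θ) with hF
  have hgprod : Good fun θ => ∏ e, lc σ c a (X θ) e := good_prod Finset.univ hg
  have hFg : Good F := (good_const hl0).mul hgprod
  have hlogF : ∀ θ, |Real.log ‖F θ‖ - s| ≤ (m + 1) * C1 := by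
    intro θ
    have h1 : Real.log ‖F θ‖ = s + ∑ e, Real.log ‖lc σ c a (X θ) e‖ := by
      have h2 : ‖F θ‖ = ‖σ lam‖ * ∏ e, ‖lc σ c a (X θ) e‖ := by
        simp only [hF]
        unfold PhC
        rw [norm_mul, norm_prod]
      rw [h2, Real.log_mul hln.ne' (Finset.prod_ne_zero_iff.2 fun e _ =>
        norm_ne_zero_iff.2 ((hg e).ne_zero θ)), Real.log_prod fun e _ =>
        norm_ne_zero_iff.2 ((hg e).ne_zero θ)]
    rw [h1, add_sub_cancel_left]
    refine (Finset.abs_sum_le_sum_abs _ _).trans ?_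
    refine (Finset.sum_le_sum fun e _ => hlogH e θ).trans ?_
    rw [Finset.sum_const, Finset.card_univ, Fintype.card_fin, nsmul_eq_mul]
    push_cast
    exact le_refl _
  have hFB : ∀ θ, B ≤ ‖F θ‖ := by
    intro θ
    have h1 := abs_le.1 (hlogF θ)
    have h2 : Real.log B ≤ Real.log ‖F θ‖ := by linarith [h1.1]
    exact (Real.log_le_log_iff (by linarith) (norm_pos_iff.2 (hFg.ne_zero θ))).1 h2
  have hlwF : ∀ j θ, ‖lw F j θ - 2 * Real.pi * Complex.I * om d q j‖ ≤ (m + 1) * δ0 := by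
    intro j θ
    have h1 : lw F j θ = ∑ e, lw (fun θ => lc σ c a (X θ) e) j θ := by
      have h2 := lw_mul (good_const (d := d + 1 + q) hl0) hgprod j θ
      rw [lw_const, zero_add, lw_prod Finset.univ hg] at h2
      exact h2
    have h3 : (2 * Real.pi * Complex.I * om d q j : ℂ) =
        ∑ e, 2 * Real.pi * Complex.I * ((wT (TS q T) (Sum.inl e) j : ℝ) : ℂ) := by
      rw [← Finset.mul_sum, ← sum_wT q T j]
      push_cast
      rfl
    rw [h1, h3, ← Finset.sum_sub_distrib]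
    refine (norm_sum_le _ _).trans ?_
    refine (Finset.sum_le_sum fun e _ => hlwH e θ j).trans ?_
    rw [Finset.sum_const, Finset.card_univ, Fintype.card_fin, nsmul_eq_mul]
    push_cast
    exact le_refl _
  have hnlwF : ∀ j θ, ‖lw F j θ‖ ≤ E := by
    intro j θ
    have h1 := norm_sub_norm_le (lw F j θ) (2 * Real.pi * Complex.I * om d q j)
    have h2 : ‖(2 * Real.pi * Complex.I * om d q j : ℂ)‖ ≤ 2 * Real.pi := by
      revert j
      intro j _
      unfold om
      refine Fin.addCases (fun j => ?_) (fun i => ?_) j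
      · rw [Fin.append_left, Complex.ofReal_one, mul_one]
        exact hnpi.le
      · rw [Fin.append_right, Complex.ofReal_zero, mul_zero, norm_zero]
        positivity
    have h3 := hlwF j θ
    rw [hE]
    linarith
  -- the functions `κ_i = y_i / Φ`
  have hFi : Good fun θ => (F θ)⁻¹ :=
    ⟨hFg.smooth.inv hFg.ne_zero, fun θ => inv_ne_zero (hFg.ne_zero θ)⟩
  have hlwFi : ∀ j θ, lw (fun θ => (F θ)⁻¹) j θ = -lw F j θ := by
    intro j θ
    have h1 := lw_mul hFg hFi j θ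
    have h2 : (fun θ => F θ * (F θ)⁻¹) = fun _ => 1 := by
      funext θ
      exact mul_inv_cancel₀ (hFg.ne_zero θ)
    rw [h2, lw_const] at h1
    linear_combination -h1
  set κ : Fin q → (Fin (d + 1 + q) → ℝ) → ℂ := fun i θ => y θ i * (F θ)⁻¹ with hκ
  have hκg : ∀ i, Good (κ i) := fun i => (hyg i).mul hFi
  have hnκ : ∀ i θ, ‖κ i θ‖ ≤ 1 / B := by
    intro i θ
    simp only [hκ]
    rw [norm_mul, norm_inv, ← div_eq_mul_inv, hny]
    exact div_le_div₀ (by norm_num) (by linarith) hBpos (hFB θ)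
  have hκ2 : ∀ θ, ‖∑ i, κ i θ‖ ≤ 1 / 2 := by
    intro θ
    refine (norm_sum_le _ _).trans ?_
    refine (Finset.sum_le_sum fun i _ => hnκ i θ).trans ?_
    rw [Finset.sum_const, Finset.card_univ, Fintype.card_fin, nsmul_eq_mul, mul_one_div,
      div_le_div_iff₀ hBpos (by norm_num)]
    linarith
  have hlwκ : ∀ i j θ, ‖lw (κ i) j θ‖ ≤ 2 * Real.pi + E := by
    intro i j θ
    have h1 : lw (κ i) j θ = lw (fun θ => y θ i) j θ + lw (fun θ => (F θ)⁻¹) j θ :=
      lw_mul (hyg i) hFi j θ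
    rw [h1, hlwFi]
    refine (norm_add_le _ _).trans ?_
    rw [norm_neg]
    exact add_le_add (hnlwy i j θ) (hnlwF j θ)
  have hκsg := good_one_sub_sum hκg hκ2
  have hlwκs : ∀ j θ, ‖lw (fun θ => 1 - ∑ i, κ i θ) j θ‖ ≤ δ0 := by
    intro j θ
    refine (norm_lw_one_sub_sum hκg hκ2 j θ).trans (le_trans ?_ hBk)
    refine mul_le_mul_of_nonneg_left ?_ (by norm_num)
    have h1 : ∀ i ∈ Finset.univ, ‖κ i θ‖ * ‖lw (κ i) j θ‖ ≤ 1 / B * (2 * Real.pi + E) :=
      fun i _ => mul_le_mul (hnκ i θ) (hlwκ i j θ) (norm_nonneg _) (by positivity)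
    refine (Finset.sum_le_sum h1).trans ?_
    rw [Finset.sum_const, Finset.card_univ, Fintype.card_fin, nsmul_eq_mul]
  -- the function `Ψ = Φ - ∑ y_i`
  have hΨg : Good fun θ => F θ * (1 - ∑ i, κ i θ) := hFg.mul hκsg
  set Ψ : (Fin (d + 1 + q) → ℝ) → ℂ := fun θ => F θ * (1 - ∑ i, κ i θ) with hΨ
  have hΨeq : ∀ θ, Ψ θ = PhC σ lam c a (X θ) - ∑ i, y θ i := by
    intro θ
    have h0 := hFg.ne_zero θ
    simp only [hΨ, hκ]
    rw [mul_sub, mul_one, ← Finset.sum_mul]
    have h1 : F θ * ((∑ i, y θ i) * (F θ)⁻¹) = ∑ i, y θ i := by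
      field_simp
    rw [h1]
  have hlogΨ : ∀ θ, |Real.log ‖Ψ θ‖ - s| ≤ (m + 1) * C1 + 1 := by
    intro θ
    have h1 : Real.log ‖Ψ θ‖ = Real.log ‖F θ‖ + Real.log ‖1 - ∑ i, κ i θ‖ := by
      simp only [hΨ]
      rw [norm_mul, Real.log_mul (norm_ne_zero_iff.2 (hFg.ne_zero θ))
        (norm_ne_zero_iff.2 (hκsg.ne_zero θ))]
    have h2 := hlogF θ
    have h3 := abs_log_one_sub (hκ2 θ)
    rw [h1]
    have h4 : Real.log ‖F θ‖ + Real.log ‖1 - ∑ i, κ i θ‖ - s =
        (Real.log ‖F θ‖ - s) + Real.log ‖1 - ∑ i, κ i θ‖ := by ring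
    rw [h4]
    exact (abs_add_le _ _).trans (add_le_add h2 h3)
  have hΨB : ∀ θ, B / 2 ≤ ‖Ψ θ‖ := by
    intro θ
    simp only [hΨ]
    rw [norm_mul]
    have h1 := hFB θ
    have h2 := norm_one_sub_ge (hκ2 θ)
    calc B / 2 = B * (1 / 2) := by ring
      _ ≤ _ := mul_le_mul h1 h2 (by norm_num) (norm_nonneg _)
  have hlwΨ : ∀ j θ, ‖lw Ψ j θ - 2 * Real.pi * Complex.I * om d q j‖ ≤ (m + 2) * δ0 := by
    intro j θ
    have h1 : lw Ψ j θ = lw F j θ + lw (fun θ => 1 - ∑ i, κ i θ) j θ := lw_mul hFg hκsg j θ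
    rw [h1]
    have h2 : lw F j θ + lw (fun θ => 1 - ∑ i, κ i θ) j θ - 2 * Real.pi * Complex.I * om d q j =
        (lw F j θ - 2 * Real.pi * Complex.I * om d q j) +
          lw (fun θ => 1 - ∑ i, κ i θ) j θ := by ring
    rw [h2]
    refine (norm_add_le _ _).trans ?_
    have h3 := hlwF j θ
    have h4 := hlwκs j θ
    linarith
  have hnlwΨ : ∀ j θ, ‖lw Ψ j θ‖ ≤ E + δ0 := by
    intro j θ
    have h1 : lw Ψ j θ = lw F j θ + lw (fun θ => 1 - ∑ i, κ i θ) j θ := lw_mul hFg hκsg j θ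
    rw [h1]
    exact (norm_add_le _ _).trans (add_le_add (hnlwF j θ) (hlwκs j θ))
  -- the function `η = 1 / (Y Ψ²)`
  have hypg : ∀ i, Good fun θ => y θ i ^ (w i + 1) := fun i => good_pow (hyg i) _
  have hYg : Good fun θ => ∏ i, y θ i ^ (w i + 1) := good_prod Finset.univ hypg
  have hYΨg : Good fun θ => (∏ i, y θ i ^ (w i + 1)) * (Ψ θ * Ψ θ) := hYg.mul (hΨg.mul hΨg)
  set η : (Fin (d + 1 + q) → ℝ) → ℂ :=
    fun θ => ((∏ i, y θ i ^ (w i + 1)) * (Ψ θ * Ψ θ))⁻¹ with hη
  have hηg : Good η :=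
    ⟨hYΨg.smooth.inv hYΨg.ne_zero, fun θ => inv_ne_zero (hYΨg.ne_zero θ)⟩
  have hlwη : ∀ j θ, ‖lw η j θ‖ ≤ N := by
    intro j θ
    have h1 := lw_mul hYΨg hηg j θ
    have h2 : (fun θ => ((∏ i, y θ i ^ (w i + 1)) * (Ψ θ * Ψ θ)) * η θ) = fun _ => 1 := by
      funext θ
      exact mul_inv_cancel₀ (hYΨg.ne_zero θ)
    rw [h2, lw_const, lw_mul hYg (hΨg.mul hΨg), lw_mul hΨg hΨg, lw_prod Finset.univ hypg] at h1
    have h3 : lw η j θ = -(∑ i, lw (fun θ => y θ i ^ (w i + 1)) j θ +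
        (lw Ψ j θ + lw Ψ j θ)) := by
      linear_combination -h1
    rw [h3, norm_neg]
    refine (norm_add_le _ _).trans ?_
    have h4 : ‖∑ i, lw (fun θ => y θ i ^ (w i + 1)) j θ‖ ≤ w0 * (2 * Real.pi) := by
      refine (norm_sum_le _ _).trans ?_
      rw [hw0, Nat.cast_sum, Finset.sum_mul]
      refine Finset.sum_le_sum fun i _ => ?_
      rw [lw_pow (hyg i), norm_mul, Complex.norm_natCast]
      exact mul_le_mul_of_nonneg_left (hnlwy i j θ) (Nat.cast_nonneg _)
    have h5 : ‖lw Ψ j θ + lw Ψ j θ‖ ≤ 2 * (E + δ0) := by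
      refine (norm_add_le _ _).trans ?_
      linarith [hnlwΨ j θ]
    rw [hN]
    linarith
  have hnη : ∀ θ, ‖η θ‖ ≤ 4 * R / B ^ 2 := by
    intro θ
    simp only [hη]
    rw [norm_inv, norm_mul, norm_mul, norm_prod]
    simp only [norm_pow, hny]
    rw [Finset.prod_pow_eq_pow_sum, ← hw0]
    have h1 := hΨB θ
    have h2 : 0 < ρ ^ w0 := pow_pos hρ w0
    have h3 : (B / 2) * (B / 2) ≤ ‖Ψ θ‖ * ‖Ψ θ‖ :=
      mul_le_mul h1 h1 (by positivity) (norm_nonneg _)
    have h4 : ρ ^ w0 * ((B / 2) * (B / 2)) ≤ ρ ^ w0 * (‖Ψ θ‖ * ‖Ψ θ‖) :=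
      mul_le_mul_of_nonneg_left h3 h2.le
    have h5 := inv_anti₀ (by positivity) h4
    refine h5.trans (le_of_eq ?_)
    rw [hR]
    field_simp
    norm_num
  have hη16 : ∀ θ, ‖η θ‖ ≤ 1 / 16 := fun θ => (hnη θ).trans hBe
  have hhg := good_he_comp hηg hη16
  have hlwh : ∀ j θ, ‖lw (fun θ => he (η θ)) j θ‖ ≤ δ0 := by
    intro j θ
    refine (norm_lw_he_comp hηg hη16 j θ).trans (le_trans ?_ hBE)
    refine mul_le_mul ?_ (hlwη j θ) (norm_nonneg _) (by positivity)
    linarith [hnη θ]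
  -- the function `z`
  have hzg : Good fun θ => Ψ θ * he (η θ) := hΨg.mul hhg
  set z : (Fin (d + 1 + q) → ℝ) → ℂ := fun θ => Ψ θ * he (η θ) with hz
  have hzp : ∀ θ i, z (θ + Pi.single i 1) = z θ := by
    intro θ i
    have h1 : Ψ (θ + Pi.single i 1) = Ψ θ := by
      rw [hΨeq, hΨeq, hXp, hyp]
    have h2 : η (θ + Pi.single i 1) = η θ := by
      simp only [hη]
      rw [h1, hyp]
    simp only [hz]
    rw [h1, h2]
  have hPt : ∀ θ, SPt w σ lam c a (X θ) (y θ) (z θ) := by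
    intro θ
    refine ⟨?_, hFg.ne_zero θ⟩
    have h1 : ∑ i, y θ i - PhC σ lam c a (X θ) = -Ψ θ := by
      rw [hΨeq]
      ring
    rw [h1]
    have h2 := he_eq (hη16 θ)
    have h3 : (∏ i, y θ i ^ (w i + 1)) * (Ψ θ * Ψ θ) * η θ = 1 :=
      mul_inv_cancel₀ (hYΨg.ne_zero θ)
    simp only [hz]
    linear_combination ((∏ i, y θ i ^ (w i + 1)) * (Ψ θ * Ψ θ)) * h2 - h3
  refine ⟨mkS X y z hXc hyc hzg.smooth hXp hyp hzp hPt, fun θ x => (hPt θ).evA_scst x,
    fun S hS => ?_⟩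
  rw [Torus.reg_symb]
  set Γ := mkS X y z hXc hyc hzg.smooth hXp hyp hzp hPt with hΓ
  have hγ : ∀ i, gam c S i ≠ 0 := by
    intro i
    unfold gam
    exact mul_ne_zero (pow_ne_zero _ (by norm_num)) (hdet _ (injective_face hS i))
  have hγc : ∀ i, σ (gam c S i) ≠ 0 := fun i => (map_ne_zero σ).2 (hγ i)
  have hgz : ∀ i, Γ.fn (sg w lam c a S i : SOpen w lam c a) =
      fun θ => σ (gam c S i) * lc σ c a (X θ) (S i) := fun i =>
    mkS_sg X y z hXc hyc hzg.smooth hXp hyp hzp hPt S i (hγ i)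
  have hgoodZ : ∀ i, Good (Γ.fn (sg w lam c a S i : SOpen w lam c a)) := fun i => Γ.good _
  have hgoodE : ∀ l, Good (Γ.fn (sent w lam c a S l : SOpen w lam c a)) := fun l => Γ.good _
  -- estimates for the `γ_i L_{S i}`
  have hZlog : ∀ i θ, |Real.log ‖Γ.fn (sg w lam c a S i : SOpen w lam c a) θ‖ / s| ≤ δ0 := by
    intro i θ
    rw [congrFun (hgz i) θ, norm_mul, Real.log_mul (norm_ne_zero_iff.2 (hγc i))
      (norm_ne_zero_iff.2 ((hg (S i)).ne_zero θ)), abs_div, abs_of_pos hspos,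
      div_le_iff₀ hspos]
    have h1 := hGS S i
    have h2 := hlogH (S i) θ
    have h3 : (G + C1) / δ0 ≤ s := by linarith
    rw [div_le_iff₀ hδ0pos] at h3
    refine (abs_add_le _ _).trans ?_
    linarith
  have hZlw : ∀ i j θ, ‖lw (Γ.fn (sg w lam c a S i : SOpen w lam c a)) j θ -
      2 * Real.pi * Complex.I * wT (TS q T) (Sum.inl (S i)) j‖ ≤ δ0 := by
    intro i j θ
    have h1 := lw_mul (good_const (d := d + 1 + q) (hγc i)) (hg (S i)) j θ
    rw [lw_const, zero_add] at h1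
    rw [hgz i]
    have h2 : lw (fun θ => σ (gam c S i) * lc σ c a (X θ) (S i)) j θ =
      lw (fun θ => lc σ c a (X θ) (S i)) j θ := h1
    rw [h2]
    exact hlwH (S i) θ j
  have hsu : ∀ k : Fin (d + 1), sent w lam c a S (Fin.castAdd q k).succ =
      sg w lam c a S k.succ / sg w lam c a S 0 := by
    intro k
    unfold sent
    rw [Fin.cons_succ, Fin.append_left]
  have hsy : ∀ i : Fin q, sent w lam c a S (Fin.natAdd (d + 1) i).succ = uy w lam c a i := by
    intro i
    unfold sent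
    rw [Fin.cons_succ, Fin.append_right]
  have hmul : ∀ l : Fin (d + 1),
      (fun θ => Γ.fn (sent w lam c a S (Fin.castAdd q l).succ : SOpen w lam c a) θ *
      Γ.fn (sg w lam c a S 0 : SOpen w lam c a) θ) =
        Γ.fn (sg w lam c a S l.succ : SOpen w lam c a) := by
    intro l
    funext θ
    unfold Torus.fn
    rw [← map_mul, ← Units.val_mul, hsu, div_mul_cancel]
  have hzfn : Γ.fn (sent w lam c a S 0 : SOpen w lam c a) = fun θ => Ψ θ * he (η θ) :=
    mkS_uz X y z hXc hyc hzg.smooth hXp hyp hzp hPt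
  have hyfn : ∀ i : Fin q, Γ.fn (sent w lam c a S (Fin.natAdd (d + 1) i).succ :
      SOpen w lam c a) = fun θ => y θ i := by
    intro i
    rw [hsy]
    exact mkS_uy X y z hXc hyc hzg.smooth hXp hyp hzp hPt i
  refine hclose S _ _ hs0 hgoodE (fun l θ => ?_) (fun l j θ => ?_)
  · revert l
    refine Fin.cases ?_ (fun l => ?_)
    · have e : RS q T S 0 0 = 1 := rfl
      rw [e, congrFun hzfn θ, norm_mul, Real.log_mul (norm_ne_zero_iff.2 (hΨg.ne_zero θ))
        (norm_ne_zero_iff.2 (hhg.ne_zero θ))]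
      have h1 := hlogΨ θ
      have h2 : |Real.log ‖he (η θ)‖| ≤ 1 := abs_log_norm_he (hη16 θ)
      have h3 : ((m + 1) * C1 + 2) / δ0 ≤ s := by linarith
      rw [div_le_iff₀ hδ0pos] at h3
      have h4 : (Real.log ‖Ψ θ‖ + Real.log ‖he (η θ)‖) / s - 1 =
          ((Real.log ‖Ψ θ‖ - s) + Real.log ‖he (η θ)‖) / s := by
        field_simp
        ring
      rw [h4, abs_div, abs_of_pos hspos]
      have h5 : |(Real.log ‖Ψ θ‖ - s) + Real.log ‖he (η θ)‖| / s ≤ δ0 := by
        rw [div_le_iff₀ hspos]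
        refine (abs_add_le _ _).trans ?_
        linarith
      have h6 := hδle S
      nlinarith
    · refine Fin.addCases (fun l => ?_) (fun i => ?_) l
      · have h1 := hZlog l.succ θ
        have h2 := hZlog 0 θ
        have h3 : Real.log ‖Γ.fn (sent w lam c a S (Fin.castAdd q l).succ : SOpen w lam c a) θ *
            Γ.fn (sg w lam c a S 0 : SOpen w lam c a) θ‖ =
            Real.log ‖Γ.fn (sg w lam c a S l.succ : SOpen w lam c a) θ‖ :=
          congrArg (fun z : ℂ => Real.log ‖z‖) (congrFun (hmul l) θ)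
        rw [norm_mul, Real.log_mul
          (norm_ne_zero_iff.2 ((hgoodE (Fin.castAdd q l).succ).ne_zero θ))
          (norm_ne_zero_iff.2 ((hgoodZ 0).ne_zero θ))] at h3
        have h4 : Real.log ‖Γ.fn (sent w lam c a S (Fin.castAdd q l).succ :
            SOpen w lam c a) θ‖ =
            Real.log ‖Γ.fn (sg w lam c a S l.succ : SOpen w lam c a) θ‖ -
            Real.log ‖Γ.fn (sg w lam c a S 0 : SOpen w lam c a) θ‖ := by
          linarith
        have e : RS q T S (Fin.castAdd q l).succ 0 = 0 := by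
          rw [RS_row_u, Fin.cons_zero]
        rw [h4, sub_div, e, sub_zero]
        refine lt_of_le_of_lt ?_ (hδle S)
        have h5 := abs_le.1 h1
        have h6 := abs_le.1 h2
        have h7 : 2 * δ0 ≤ (m + 4) * δ0 := mul_le_mul_of_nonneg_right (by linarith) hδ0pos.le
        rw [abs_le]
        constructor <;> linarith [h5.1, h5.2, h6.1, h6.2]
      · have e : RS q T S (Fin.natAdd (d + 1) i).succ 0 = 0 := by
          rw [RS_row_y, Fin.cons_zero]
        rw [e, sub_zero, congrFun (hyfn i) θ, abs_div, abs_of_pos hspos]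
        refine lt_of_le_of_lt ?_ (hδle S)
        have h1 := hlogy i θ
        have h3 : (G + C1) / δ0 ≤ s := by linarith
        rw [div_le_iff₀ hδ0pos] at h3
        have h4 : |Real.log ‖y θ i‖| / s ≤ δ0 := by
          rw [div_le_iff₀ hspos]
          linarith
        nlinarith
  · revert l
    refine Fin.cases ?_ (fun l => ?_)
    · have e : RS q T S 0 j.succ = om d q j := rfl
      rw [e, hzfn, lw_mul hΨg hhg]
      have h1 := hlwΨ j θ
      have h2 := hlwh j θ
      have h3 : lw Ψ j θ + lw (fun θ => he (η θ)) j θ - 2 * Real.pi * Complex.I * om d q j =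
          (lw Ψ j θ - 2 * Real.pi * Complex.I * om d q j) + lw (fun θ => he (η θ)) j θ := by ring
      rw [h3]
      refine lt_of_le_of_lt ((norm_add_le _ _).trans (add_le_add h1 h2)) ?_
      have h4 := hδle S
      nlinarith
    · refine Fin.addCases (fun l => ?_) (fun i => ?_) l
      · have h1 := hZlw l.succ j θ
        have h2 := hZlw 0 j θ
        have h3 := lw_mul (hgoodE (Fin.castAdd q l).succ) (hgoodZ 0) j θ
        rw [hmul l] at h3
        have h4 : lw (Γ.fn (sent w lam c a S (Fin.castAdd q l).succ : SOpen w lam c a)) j θ =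
            lw (Γ.fn (sg w lam c a S l.succ : SOpen w lam c a)) j θ -
            lw (Γ.fn (sg w lam c a S 0 : SOpen w lam c a)) j θ := by
          rw [h3]
          ring
        have e : RS q T S (Fin.castAdd q l).succ j.succ =
            wT (TS q T) (Sum.inl (S l.succ)) j - wT (TS q T) (Sum.inl (S 0)) j := by
          rw [RS_row_u, Fin.cons_succ]
        rw [h4, e]
        refine lt_of_le_of_lt ?_ (hδle S)
        have e2 : lw (Γ.fn (sg w lam c a S l.succ : SOpen w lam c a)) j θ -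
            lw (Γ.fn (sg w lam c a S 0 : SOpen w lam c a)) j θ - 2 * Real.pi * Complex.I *
              ((wT (TS q T) (Sum.inl (S l.succ)) j - wT (TS q T) (Sum.inl (S 0)) j : ℝ) : ℂ) =
            (lw (Γ.fn (sg w lam c a S l.succ : SOpen w lam c a)) j θ -
              2 * Real.pi * Complex.I * wT (TS q T) (Sum.inl (S l.succ)) j) -
            (lw (Γ.fn (sg w lam c a S 0 : SOpen w lam c a)) j θ -
              2 * Real.pi * Complex.I * wT (TS q T) (Sum.inl (S 0)) j) := by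
          push_cast
          ring
        rw [e2]
        refine (norm_sub_le _ _).trans ?_
        have h7 : 2 * δ0 ≤ (m + 4) * δ0 := mul_le_mul_of_nonneg_right (by linarith) hδ0pos.le
        linarith
      · have e : RS q T S (Fin.natAdd (d + 1) i).succ j.succ =
            if j = Fin.natAdd (d + 1) i then 1 else 0 := by
          rw [RS_row_y, Fin.cons_succ]
        have h0 : lw (fun θ => y θ i) j θ - 2 * Real.pi * Complex.I *
            ((if j = Fin.natAdd (d + 1) i then 1 else 0 : ℝ) : ℂ) = 0 := by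
          rw [hlwy]
          split_ifs <;> simp
        rw [e, hyfn, h0, norm_zero]
        exact hδ S

theorem exists_tori {q : ℕ} (w : Fin q → ℕ) (σ : K →+* ℂ)
    (hdet : ∀ T : Fin (d + 1) → Fin (m + 1), Function.Injective T → (cm c T).det ≠ 0)
    (hgen : ∀ S : Fin (d + 2) → Fin (m + 1), Function.Injective S → ∀ x : Fin (d + 1) → K,
      ∃ i, ∑ j, c (S i) j * x j ≠ a (S i)) :
    ∃ C : ℝ, 1 ≤ C ∧ ∀ lam : K, C ≤ ‖σ lam‖ →
      ∃ Γ : {s : Finset (Fin m) // s.card = d + 1} → Torus (SOpen w lam c a) (d + 1 + q),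
        (∀ t θ x, (Γ t).e θ (scst w lam c a x) = σ x) ∧
        (Matrix.of fun t i : {s : Finset (Fin m) // s.card = d + 1} =>
          (Γ t).reg (symb (sent w lam c a (splx i)))).det ≠ 0 := by
  classical
  set D0 : ℝ := (2 * Real.pi) ^ (d + 1 + q) with hD0
  have hD : D0 ≠ 0 := by
    have := Real.pi_pos
    positivity
  have hlead : (D0 • (1 : Matrix {s : Finset (Fin m) // s.card = d + 1}
      {s : Finset (Fin m) // s.card = d + 1} ℝ)).det ≠ 0 := by
    rw [Matrix.det_smul, Matrix.det_one, mul_one]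
    exact pow_ne_zero _ hD
  obtain ⟨δ, hδ, hdet'⟩ := det_ne_zero_near _ hlead
  choose Λ hΛ1 hΛ using fun t : {s : Finset (Fin m) // s.card = d + 1} =>
    exists_torus (w := w) (a := a) σ hdet hgen (vert_injective t) (ε := δ / 2) (by linarith)
  set C : ℝ := ∑ t, |Λ t| + 2 with hC
  have hsum : 0 ≤ ∑ t, |Λ t| := Finset.sum_nonneg fun J _ => abs_nonneg _
  have hΛC : ∀ t, Λ t ≤ C := by
    intro t
    have h1 := Finset.single_le_sum (f := fun t => |Λ t|) (fun t _ => abs_nonneg _)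
      (Finset.mem_univ t)
    have h2 := le_abs_self (Λ t)
    have h3 : |Λ t| ≤ ∑ t, |Λ t| := h1
    linarith
  refine ⟨C, by linarith, fun lam hlam => ?_⟩
  choose Γ hΓ1 hΓ2 using fun t => hΛ t lam ((hΛC t).trans hlam)
  refine ⟨Γ, hΓ1, ?_⟩
  have hs : Real.log ‖σ lam‖ ≠ 0 := by
    have : 0 < Real.log ‖σ lam‖ := Real.log_pos (by linarith)
    linarith
  set s : ℝ := Real.log ‖σ lam‖ with hsdef
  have h1 : (Matrix.of fun t i : {s : Finset (Fin m) // s.card = d + 1} =>
      (Γ t).reg (symb (sent w lam c a (splx i))) / s).det ≠ 0 := by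
    refine hdet' _ fun t i => ?_
    rw [Matrix.of_apply, Matrix.smul_apply, Matrix.one_apply, smul_eq_mul]
    refine lt_of_le_of_lt ?_ (show δ / 2 < δ by linarith)
    have h2 := hΓ2 t (splx i) (splx_injective i)
    rwa [det_RS, det_RM] at h2
  have h2 : (Matrix.of fun t i : {s : Finset (Fin m) // s.card = d + 1} =>
      (Γ t).reg (symb (sent w lam c a (splx i)))) =
      s • (Matrix.of fun t i : {s : Finset (Fin m) // s.card = d + 1} =>
        (Γ t).reg (symb (sent w lam c a (splx i))) / s) := by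
    ext t i
    rw [Matrix.smul_apply, Matrix.of_apply, Matrix.of_apply, smul_eq_mul]
    field_simp
  rw [h2, Matrix.det_smul]
  exact mul_ne_zero (pow_ne_zero _ hs) h1

end main

end Pool.Agent.TH690.SF
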