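import Pool.Agent.TH826.EF.Milnor
set_option autoImplicit false

/-!
Symbols some of whose entries form a symbol with one-units, and symbols `{t_0, ..., t_q}` with the
sum `t_0 + ... + t_q + 1/(t_0 ... t_q)` of smaller order than its largest summand.
-/

namespace Pool.Agent.TH690.SF

open scoped WithZero

open Pool.Agent.TH826.MK

open Pool.Agent.TH826.SX

open Pool.Agent.TH826.EF

section ext

variable {L : Type*} [Field L] {k n : ℕ}

theorem extend_update {ι : Fin k → Fin n} (hι : Function.Injective ι) (a : Fin k → Lˣ)
    (b : Fin n → Lˣ) (i : Fin k) (x : Lˣ) :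
    Function.extend ι (Function.update a i x) b =
      Function.update (Function.extend ι a b) (ι i) x := by
  classical
  funext l
  by_cases hl : ∃ j, ι j = l
  · obtain ⟨j, rfl⟩ := hl
    rw [hι.extend_apply]
    by_cases hj : j = i
    · subst hj
      rw [Function.update_self, Function.update_self]
    · rw [Function.update_of_ne hj, Function.update_of_ne (fun e => hj (hι e)), hι.extend_apply]
  · rw [Function.extend_apply' _ _ _ hl, Function.update_of_ne (fun e => hl ⟨i, e.symm⟩),
      Function.extend_apply' _ _ _ hl]

/-- The map sending `{a_1, ..., a_k}` to the symbol with these entries at the places `ι` and the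
entries `b` at the other places. -/
noncomputable def ext {ι : Fin k → Fin n} (hι : Function.Injective ι) (b : Fin n → Lˣ) :
    KQ L k →ₗ[ℚ] KQ L n :=
  KQ.lift (fun a => symb (Function.extend ι a b)) (by
    intro a i y z
    rw [extend_update hι, extend_update hι, extend_update hι, symb_update_mul]) (by
    rintro a ⟨i, j, hij, h⟩
    refine symb_eq_zero' _ (i := ι i) (j := ι j) (fun e => hij.ne (hι e)) ?_
    rw [hι.extend_apply, hι.extend_apply]
    exact h)

theorem ext_symb {ι : Fin k → Fin n} (hι : Function.Injective ι) (b : Fin n → Lˣ)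
    (a : Fin k → Lˣ) : ext hι b (symb a) = symb (Function.extend ι a b) := by
  unfold ext
  rw [KQ.lift_symb]

theorem ext_mem_onePart (v : Valuation L ℤᵐ⁰) {ι : Fin k → Fin n} (hι : Function.Injective ι)
    (b : Fin n → Lˣ) {z : KQ L k} (hz : z ∈ onePart v k) : ext hι b z ∈ onePart v n := by
  unfold onePart at hz
  induction hz using Submodule.span_induction with
  | mem z hz =>
    obtain ⟨a, l, hl, rfl⟩ := hz
    rw [ext_symb]
    exact Submodule.subset_span ⟨_, ι l, by rwa [hι.extend_apply], rfl⟩
  | zero => rw [map_zero]; exact Submodule.zero_mem _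
  | add a b _ _ ha hb => rw [map_add]; exact Submodule.add_mem _ ha hb
  | smul q a _ ha => rw [map_smul]; exact Submodule.smul_mem _ _ ha

/-- If the entries at some places form a symbol in `onePart`, so do all. -/
theorem mem_onePart_of_comp (v : Valuation L ℤᵐ⁰) (c : Fin n → Lˣ) {ι : Fin k → Fin n}
    (hι : Function.Injective ι) (h : symb (fun l => c (ι l)) ∈ onePart v k) :
    symb c ∈ onePart v n := by
  have h1 := ext_mem_onePart v hι c h
  rw [ext_symb] at h1
  have h2 : Function.extend ι (fun l => c (ι l)) c = c := by
    funext l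
    by_cases hl : ∃ j, ι j = l
    · obtain ⟨j, rfl⟩ := hl
      rw [hι.extend_apply]
    · rw [Function.extend_apply' _ _ _ hl]
  rwa [h2] at h1

end ext

section block

variable {L : Type*} [Field L] {n : ℕ}

theorem symb_update_prod (t : Fin n → Lˣ) (j : Fin n) {ι : Type*} (s : Finset ι) (g : ι → Lˣ) :
    symb (Function.update t j (∏ i ∈ s, g i)) = ∑ i ∈ s, symb (Function.update t j (g i)) := by
  classical
  induction s using Finset.induction_on with
  | empty => rw [Finset.prod_empty, Finset.sum_empty, symb_upd_one]
  | insert i s hi ih => rw [Finset.prod_insert hi, Finset.sum_insert hi, symb_update_mul, ih]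

theorem symb_update_pow (t : Fin n → Lˣ) (j : Fin n) (x : Lˣ) (k : ℕ) :
    symb (Function.update t j (x ^ k)) = (k : ℚ) • symb (Function.update t j x) := by
  have h := symb_update_zpow t j x (k : ℤ)
  rwa [zpow_natCast, Int.cast_natCast] at h

theorem symb_update_prod_self (t : Fin n → Lˣ) (w : Fin n → ℕ) (j : Fin n) :
    symb (Function.update t j (∏ i, t i ^ w i)) = (w j : ℚ) • symb t := by
  classical
  rw [symb_update_prod, Finset.sum_eq_single j]
  · rw [symb_update_pow, Function.update_eq_self]
  · intro i _ hi
    rw [symb_update_pow, symb_self _ (i := i) (j := j) hi, smul_zero]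
    rw [Function.update_self, Function.update_of_ne hi]
  · intro h
    exact absurd (Finset.mem_univ j) h

theorem symb_mul_on (b : Fin n → Lˣ) (j : Fin n) (P : Lˣ) (hb : b j = P) (T : Finset (Fin n))
    (hT : j ∉ T) : symb (fun k => if k ∈ T then b k * P else b k) = symb b := by
  classical
  induction T using Finset.induction_on with
  | empty => simp
  | insert i T hi ih =>
    have hij : i ≠ j := fun e => hT (e ▸ Finset.mem_insert_self _ _)
    have hjT : j ∉ T := fun e => hT (Finset.mem_insert_of_mem e)
    rw [← ih hjT]
    set b' : Fin n → Lˣ := fun k => if k ∈ T then b k * P else b k with hb'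
    have hbi : b' i = b i := by simp [hb', hi]
    have hbj : b' j = P := by simp [hb', hjT, hb]
    have e : (fun k => if k ∈ insert i T then b k * P else b k) =
        Function.update b' i (b i * P) := by
      funext k
      by_cases h : k = i
      · subst h; simp
      · simp [h, hb']
    rw [e, symb_update_mul, ← hbi, Function.update_eq_self]
    have h0 : symb (Function.update b' i P) = 0 :=
      symb_self _ (i := j) (j := i) hij.symm
        (by rw [Function.update_self, Function.update_of_ne hij.symm, hbj])
    rw [h0, add_zero]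

/-- `{t_0 P, ..., t_{n-1} P} = (1 + w_0 + ... + w_{n-1}) {t_0, ..., t_{n-1}}` for
`P = t_0 ^ w_0 ... t_{n-1} ^ w_{n-1}`. -/
theorem symb_mul_prod (t : Fin n → Lˣ) (w : Fin n → ℕ) (T : Finset (Fin n)) :
    symb (fun k => if k ∈ T then t k * ∏ i, t i ^ w i else t k) =
      ((∑ k ∈ T, w k + 1 : ℕ) : ℚ) • symb t := by
  classical
  induction T using Finset.induction_on with
  | empty => simp
  | insert j T hj ih =>
    set P : Lˣ := ∏ i, t i ^ w i with hP
    set b : Fin n → Lˣ := fun k => if k ∈ T then t k * P else t k with hb
    have hbj : b j = t j := by simp [hb, hj]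
    have e : (fun k => if k ∈ insert j T then t k * P else t k) =
        Function.update b j (t j * P) := by
      funext k
      by_cases h : k = j
      · subst h; simp
      · simp [h, hb]
    have e2 : Function.update b j P =
        fun k => if k ∈ T then Function.update t j P k * P else Function.update t j P k := by
      funext k
      by_cases h : k = j
      · subst h
        rw [Function.update_self, if_neg hj, Function.update_self]
      · rw [Function.update_of_ne h, Function.update_of_ne h]
    have h1 : symb (Function.update b j P) = (w j : ℚ) • symb t := by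
      rw [e2, symb_mul_on (Function.update t j P) j P (Function.update_self _ _ _) T hj, hP,
        symb_update_prod_self]
    rw [e, symb_update_mul, h1, ← hbj, Function.update_eq_self, ih, Finset.sum_insert hj,
      ← add_smul]
    congr 1
    push_cast
    ring

theorem symb_mul_prod' (t : Fin n → Lˣ) (w : Fin n → ℕ) :
    symb (fun k => t k * ∏ i, t i ^ w i) = ((∑ k, w k + 1 : ℕ) : ℚ) • symb t := by
  have h := symb_mul_prod t w Finset.univ
  simpa using h

/-- The symbols `{t_0, ..., t_{n-1}}`, if the sum of the `t_k` and of `1/(t_0 ^ w_0 ...)` is of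
smaller order than one of these. -/
theorem block_mem_onePart (v : Valuation L ℤᵐ⁰) (t : Fin n → Lˣ) (w : Fin n → ℕ) (l : Fin (n + 1))
    (h : v (∑ k, ((Fin.cons (∏ i, t i ^ w i)⁻¹ t : Fin (n + 1) → Lˣ) k : L)) <
      v ((Fin.cons (∏ i, t i ^ w i)⁻¹ t : Fin (n + 1) → Lˣ) l : L)) : symb t ∈ onePart v n := by
  set z : Fin (n + 1) → Lˣ := Fin.cons (∏ i, t i ^ w i)⁻¹ t with hz
  obtain ⟨l', -, hl'⟩ := Finset.exists_max_image Finset.univ (fun k => v (z k : L))
    ⟨l, Finset.mem_univ l⟩
  have h1 := mem_onePart_of_sum_lt v z l' (fun k => hl' k (Finset.mem_univ k))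
    (h.trans_le (hl' l (Finset.mem_univ l)))
  have h2 : (fun k : Fin n => z k.succ / z 0) = fun k => t k * ∏ i, t i ^ w i := by
    funext k
    rw [hz, Fin.cons_succ, Fin.cons_zero, div_inv_eq_mul]
  rw [h2, symb_mul_prod'] at h1
  have hm' : ((∑ k, w k + 1 : ℕ) : ℚ) ≠ 0 := Nat.cast_ne_zero.2 (Nat.succ_ne_zero _)
  have h3 := (onePart v n).smul_mem (((∑ k, w k + 1 : ℕ) : ℚ)⁻¹) h1
  rwa [smul_smul, inv_mul_cancel₀ hm', one_smul] at h3

end block

end Pool.Agent.TH690.SF
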