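import Pool.Agent.TH826.EF.Dom
import Pool.Agent.TH690.SF.Milnor
set_option autoImplicit false

/-!
The fibrations `z + y_1 + ... + y_q + 1/(z y_1 ^ (w_1 + 1) ... y_q ^ (w_q + 1)) = λ ∏_e L_e` over the
affine space and the symbols
`{z, γ_1 L_{S 1}/(γ_0 L_{S 0}), ..., γ_n L_{S n}/(γ_0 L_{S 0}), y_1, ..., y_q}`.
-/

namespace Pool.Agent.TH690.SF

open scoped WithZero

open Pool.Agent.TH826.MK (KQ symb Unramified unitPart)

open Pool.Agent.TH826.GA

open Pool.Agent.TH826.DC (dPhi)

open Pool.Agent.TH826.EF (onePart onePart_le mem_onePart_of_sum_lt irreducible_quad)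

section irr

/-- A polynomial with constant coefficient `1` is irreducible, if its image under a homomorphism of
the coefficients is irreducible of the same positive degree. -/
theorem irreducible_of_map {R S : Type*} [CommRing R] [IsDomain R] [CommRing S] [IsDomain S]
    (φ : R →+* S) {f : Polynomial R} (hd : (f.map φ).natDegree = f.natDegree)
    (h0 : f.coeff 0 = 1) (hpos : 0 < f.natDegree) (hi : Irreducible (f.map φ)) :
    Irreducible f := by
  have key : ∀ g h : Polynomial R, f = g * h → IsUnit (g.map φ) → IsUnit g := by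
    intro g h hgh hu
    have hf0 : f ≠ 0 := by
      rintro rfl
      simp at hpos
    have hg0 : g ≠ 0 := by
      rintro rfl
      rw [zero_mul] at hgh
      exact hf0 hgh
    have hh0 : h ≠ 0 := by
      rintro rfl
      rw [mul_zero] at hgh
      exact hf0 hgh
    have h1 : f.natDegree = g.natDegree + h.natDegree := by
      rw [hgh, Polynomial.natDegree_mul hg0 hh0]
    have hm : f.map φ = g.map φ * h.map φ := by rw [hgh, Polynomial.map_mul]
    have hm0 : f.map φ ≠ 0 := hi.ne_zero
    have hgm : g.map φ ≠ 0 := by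
      intro e
      rw [hm, e, zero_mul] at hm0
      exact hm0 rfl
    have hhm : h.map φ ≠ 0 := by
      intro e
      rw [hm, e, mul_zero] at hm0
      exact hm0 rfl
    have h2 : (f.map φ).natDegree = (g.map φ).natDegree + (h.map φ).natDegree := by
      rw [hm, Polynomial.natDegree_mul hgm hhm]
    have h3 : (g.map φ).natDegree = 0 := Polynomial.natDegree_eq_zero_of_isUnit hu
    have h4 : (h.map φ).natDegree ≤ h.natDegree := Polynomial.natDegree_map_le
    have h5 : g.natDegree = 0 := by omega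
    have h6 : g = Polynomial.C (g.coeff 0) := Polynomial.eq_C_of_natDegree_eq_zero h5
    have h7 : g.coeff 0 * h.coeff 0 = 1 := by
      rw [← h0, hgh, Polynomial.mul_coeff_zero]
    rw [h6]
    exact (IsUnit.of_mul_eq_one _ h7).map Polynomial.C
  refine ⟨fun hu => ?_, fun g h hgh => ?_⟩
  · have := Polynomial.natDegree_eq_zero_of_isUnit hu
    omega
  · have hm : f.map φ = g.map φ * h.map φ := by rw [hgh, Polynomial.map_mul]
    rcases hi.isUnit_or_isUnit hm with hu | hu
    · exact Or.inl (key g h hgh hu)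
    · exact Or.inr (key h g (by rw [hgh, mul_comm]) hu)

end irr

section Ring

/-- The product `y_1 ^ (w_1 + 1) ... y_q ^ (w_q + 1)`. -/
noncomputable def sY (K : Type*) [Field K] (d : ℕ) {q : ℕ} (w : Fin q → ℕ) :
    MvPolynomial (Fin (d + 1) ⊕ Fin q) K :=
  ∏ i : Fin q, MvPolynomial.X (Sum.inr i) ^ (w i + 1)

/-- The sum `y_1 + ... + y_q`. -/
noncomputable def sS (K : Type*) [Field K] (d q : ℕ) : MvPolynomial (Fin (d + 1) ⊕ Fin q) K :=
  ∑ i : Fin q, MvPolynomial.X (Sum.inr i)

variable {K : Type*} [Field K] {d m : ℕ} {q : ℕ} (w : Fin q → ℕ) (lam : K)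
  (c : Fin (m + 1) → Fin (d + 1) → K) (a : Fin (m + 1) → K)

/-- The polynomial `Φ = λ ∏_e L_e(x)` as a polynomial in `x_0, ..., x_d, y_1, ..., y_q`. -/
noncomputable def sPhi (q : ℕ) (lam : K) (c : Fin (m + 1) → Fin (d + 1) → K)
    (a : Fin (m + 1) → K) : MvPolynomial (Fin (d + 1) ⊕ Fin q) K :=
  MvPolynomial.rename Sum.inl (dPhi lam c a)

/-- The equation `Y z² + Y (y_1 + ... + y_q - Φ) z + 1`, `Y = y_1 ^ (w_1 + 1) ... y_q ^ (w_q + 1)`, that is
`Y z (z + y_1 + ... + y_q + 1/(Y z) - Φ)`. -/
noncomputable def eS : Polynomial (MvPolynomial (Fin (d + 1) ⊕ Fin q) K) :=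
  Polynomial.C (sY K d w) * Polynomial.X ^ 2 +
    Polynomial.C (sY K d w * (sS K d q - sPhi q lam c a)) * Polynomial.X + 1

/-- The coordinate ring of the hypersurface `Y z² + Y (y_1 + ... + y_q - Φ) z + 1 = 0` in the
affine space with coordinates `x_0, ..., x_d, y_1, ..., y_q, z`. -/
def SRing : Type _ := AdjoinRoot (eS w lam c a)

noncomputable instance : CommRing (SRing w lam c a) := AdjoinRoot.instCommRing (eS w lam c a)

/-- The polynomials in `x_0, ..., x_d, y_1, ..., y_q` as functions on the hypersurface. -/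
noncomputable def sof : MvPolynomial (Fin (d + 1) ⊕ Fin q) K →+* SRing w lam c a :=
  AdjoinRoot.of (eS w lam c a)

/-- The polynomials in `x_0, ..., x_d` as functions on the hypersurface. -/
noncomputable def spol : MvPolynomial (Fin (d + 1)) K →+* SRing w lam c a :=
  (sof w lam c a).comp (MvPolynomial.rename Sum.inl : _ →ₐ[K] _).toRingHom

/-- The function `y_i`. -/
noncomputable def sy (i : Fin q) : SRing w lam c a := sof w lam c a (MvPolynomial.X (Sum.inr i))

/-- The function `z`. -/
noncomputable def sz : SRing w lam c a := AdjoinRoot.root (eS w lam c a)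

/-- The polynomial `Φ T - 1`. -/
noncomputable def sqnT : Polynomial (SRing w lam c a) :=
  Polynomial.C (spol w lam c a (dPhi lam c a)) * Polynomial.X - 1

/-- The coordinate ring of the open part `Φ ≠ 0` of the hypersurface: the ring obtained from the
coordinate ring of the hypersurface by adjoining `T` with `Φ T = 1`. -/
def SOpen : Type _ := AdjoinRoot (sqnT w lam c a)

noncomputable instance : CommRing (SOpen w lam c a) := AdjoinRoot.instCommRing (sqnT w lam c a)

/-- The restriction of functions to the open part. -/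
noncomputable def toS : SRing w lam c a →+* SOpen w lam c a := AdjoinRoot.of (sqnT w lam c a)

/-- The constants. -/
noncomputable def scst : K →+* SOpen w lam c a :=
  (toS w lam c a).comp ((spol w lam c a).comp MvPolynomial.C)

theorem sz_eq : (∏ i, sy w lam c a i ^ (w i + 1)) * sz w lam c a ^ 2 +
    (∏ i, sy w lam c a i ^ (w i + 1)) * (∑ i, sy w lam c a i - spol w lam c a (dPhi lam c a)) *
      sz w lam c a + 1 = 0 := by
  have h := AdjoinRoot.mk_self (f := eS w lam c a)
  have h2 : AdjoinRoot.mk (eS w lam c a) (eS w lam c a) =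
      AdjoinRoot.of (eS w lam c a) (sY K d w) * AdjoinRoot.root (eS w lam c a) ^ 2 +
      AdjoinRoot.of (eS w lam c a) (sY K d w * (sS K d q - sPhi q lam c a)) *
        AdjoinRoot.root (eS w lam c a) + 1 := by
    conv_lhs => rw [show AdjoinRoot.mk (eS w lam c a) (eS w lam c a) =
      AdjoinRoot.mk (eS w lam c a) (Polynomial.C (sY K d w) * Polynomial.X ^ 2 +
    Polynomial.C (sY K d w * (sS K d q - sPhi q lam c a)) * Polynomial.X + 1) from rfl]
    rw [map_add, map_add, map_mul, map_mul, map_pow, AdjoinRoot.mk_X, AdjoinRoot.mk_C,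
      AdjoinRoot.mk_C, map_one]
  rw [h2, map_mul, map_sub] at h
  have h3 : AdjoinRoot.of (eS w lam c a) (sY K d w) = ∏ i, sy w lam c a i ^ (w i + 1) := by
    unfold sY
    have h5 : sof w lam c a (∏ i : Fin q, MvPolynomial.X (Sum.inr i) ^ (w i + 1)) =
        ∏ i, sy w lam c a i ^ (w i + 1) := by
      rw [map_prod]
      exact Finset.prod_congr rfl fun i _ => map_pow _ _ _
    exact h5
  have h4 : AdjoinRoot.of (eS w lam c a) (sS K d q) = ∑ i, sy w lam c a i := by
    unfold sS
    exact map_sum (sof w lam c a) _ _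
  rw [h3, h4] at h
  exact h

theorem isUnit_sPhi : IsUnit (toS w lam c a (spol w lam c a (dPhi lam c a))) := by
  have h := AdjoinRoot.mk_self (f := sqnT w lam c a)
  have h2 : AdjoinRoot.mk (sqnT w lam c a) (sqnT w lam c a) =
      AdjoinRoot.of (sqnT w lam c a) (spol w lam c a (dPhi lam c a)) *
        AdjoinRoot.root (sqnT w lam c a) - 1 := by
    conv_lhs => rw [show AdjoinRoot.mk (sqnT w lam c a) (sqnT w lam c a) =
      AdjoinRoot.mk (sqnT w lam c a)
      (Polynomial.C (spol w lam c a (dPhi lam c a)) * Polynomial.X - 1) from rfl]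
    rw [map_sub, map_mul, map_one, AdjoinRoot.mk_X, AdjoinRoot.mk_C]
  rw [h2, sub_eq_zero] at h
  exact IsUnit.of_mul_eq_one _ h

theorem isUnit_sz' : IsUnit (sz w lam c a) := by
  refine IsUnit.of_mul_eq_one (-((∏ i, sy w lam c a i ^ (w i + 1)) * sz w lam c a +
    (∏ i, sy w lam c a i ^ (w i + 1)) * (∑ i, sy w lam c a i - spol w lam c a (dPhi lam c a)))) ?_
  linear_combination -(sz_eq w lam c a)

theorem isUnit_sYprod : IsUnit (∏ i, sy w lam c a i ^ (w i + 1)) := by
  refine IsUnit.of_mul_eq_one (-(sz w lam c a ^ 2 +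
    (∑ i, sy w lam c a i - spol w lam c a (dPhi lam c a)) * sz w lam c a)) ?_
  linear_combination -(sz_eq w lam c a)

theorem isUnit_sy' (i : Fin q) : IsUnit (sy w lam c a i) :=
  isUnit_of_dvd_unit ((dvd_pow_self _ (Nat.succ_ne_zero _)).trans
    (Finset.dvd_prod_of_mem (fun i => sy w lam c a i ^ (w i + 1)) (Finset.mem_univ i)))
    (isUnit_sYprod w lam c a)

theorem isUnit_sy (i : Fin q) : IsUnit (toS w lam c a (sy w lam c a i)) :=
  (isUnit_sy' w lam c a i).map _

theorem isUnit_sz : IsUnit (toS w lam c a (sz w lam c a)) := (isUnit_sz' w lam c a).map _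

theorem isUnit_sl (e : Fin (m + 1)) : IsUnit (toS w lam c a (spol w lam c a (lf c a e))) := by
  refine isUnit_of_dvd_unit (map_dvd _ (map_dvd _ ?_)) (isUnit_sPhi w lam c a)
  exact Dvd.dvd.mul_left (Finset.dvd_prod_of_mem (fun e => lf c a e) (Finset.mem_univ e)) _

/-- The unit `y_i`. -/
noncomputable def uy (i : Fin q) : (SOpen w lam c a)ˣ := (isUnit_sy w lam c a i).unit

/-- The unit `z`. -/
noncomputable def uz : (SOpen w lam c a)ˣ := (isUnit_sz w lam c a).unit

/-- The unit `L_e`. -/
noncomputable def su (e : Fin (m + 1)) : (SOpen w lam c a)ˣ := (isUnit_sl w lam c a e).unit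

theorem coe_uy (i : Fin q) : (uy w lam c a i : SOpen w lam c a) = toS w lam c a (sy w lam c a i) :=
  rfl

theorem coe_uz : (uz w lam c a : SOpen w lam c a) = toS w lam c a (sz w lam c a) := rfl

theorem coe_su (e : Fin (m + 1)) :
    (su w lam c a e : SOpen w lam c a) = toS w lam c a (spol w lam c a (lf c a e)) := rfl

/-- The unit `γ_i L_{S i}`, where `∑_i γ_i L_{S i}` is constant. -/
noncomputable def sg (S : Fin (d + 2) → Fin (m + 1)) (i : Fin (d + 2)) : (SOpen w lam c a)ˣ :=
  Units.map (scst w lam c a : K →* SOpen w lam c a) (ku (gam c S i)) * su w lam c a (S i)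

/-- The entries `z`, `γ_k L_{S k} / (γ_0 L_{S 0})`, `k = 1, ..., d + 1`, and `y_1, ..., y_q` of the
symbol of the simplex with the facets `L_{S 0}, ..., L_{S (d + 1)}`. -/
noncomputable def sent (S : Fin (d + 2) → Fin (m + 1)) :
    Fin (d + 1 + q + 1) → (SOpen w lam c a)ˣ :=
  Fin.cons (uz w lam c a) (Fin.append (fun k : Fin (d + 1) => sg w lam c a S k.succ / sg w lam c a S 0)
    (fun i : Fin q => uy w lam c a i))

end Ring

section Domain

variable {K : Type*} [Field K] {d m : ℕ} {q : ℕ} {w : Fin q → ℕ} {lam : K}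
  {c : Fin (m + 1) → Fin (d + 1) → K}
  {a : Fin (m + 1) → K}

theorem sY_ne_zero : sY K d w ≠ 0 := by
  unfold sY
  exact Finset.prod_ne_zero_iff.2 fun i _ => pow_ne_zero _ (MvPolynomial.X_ne_zero _)

theorem eS_eq : eS w lam c a = Polynomial.C (sY K d w) * Polynomial.X ^ 2 +
    Polynomial.C (sY K d w * (sS K d q - sPhi q lam c a)) * Polynomial.X + Polynomial.C 1 := by
  unfold eS
  rw [map_one]

theorem natDegree_eS : (eS w lam c a).natDegree = 2 := by
  rw [eS_eq]
  exact Polynomial.natDegree_quadratic sY_ne_zero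

theorem irreducible_eS (hc : ∀ e, c e ≠ 0) (hl : lam ≠ 0) : Irreducible (eS w lam c a) := by
  set φ : MvPolynomial (Fin (d + 1) ⊕ Fin q) K →+* MvPolynomial (Fin (d + 1)) K :=
    (MvPolynomial.aeval (Sum.elim MvPolynomial.X fun _ => 1) :
      MvPolynomial (Fin (d + 1) ⊕ Fin q) K →ₐ[K] MvPolynomial (Fin (d + 1)) K).toRingHom with hφ
  have hφX : ∀ i : Fin q, φ (MvPolynomial.X (Sum.inr i)) = 1 := by
    intro i
    show (MvPolynomial.aeval (Sum.elim MvPolynomial.X fun _ => 1) :
      MvPolynomial (Fin (d + 1) ⊕ Fin q) K →ₐ[K] MvPolynomial (Fin (d + 1)) K) _ = 1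
    rw [MvPolynomial.aeval_X]
    rfl
  have h1 : φ (sY K d w) = 1 := by
    unfold sY
    rw [map_prod]
    simp only [map_pow, hφX, one_pow, Finset.prod_const_one]
  have h2 : φ (sS K d q) = (q : MvPolynomial (Fin (d + 1)) K) := by
    unfold sS
    rw [map_sum]
    simp only [hφX, Finset.sum_const, Finset.card_univ, Fintype.card_fin, nsmul_eq_mul, mul_one]
  have h3 : φ (sPhi q lam c a) = dPhi lam c a := by
    show (MvPolynomial.aeval (Sum.elim MvPolynomial.X fun _ => 1) :
      MvPolynomial (Fin (d + 1) ⊕ Fin q) K →ₐ[K] MvPolynomial (Fin (d + 1)) K)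
        (MvPolynomial.rename Sum.inl (dPhi lam c a)) = _
    rw [MvPolynomial.aeval_rename]
    have e : (Sum.elim MvPolynomial.X fun _ => 1 : Fin (d + 1) ⊕ Fin q →
      MvPolynomial (Fin (d + 1)) K) ∘ Sum.inl = MvPolynomial.X := by
      funext j
      rfl
    rw [e, MvPolynomial.aeval_X_left_apply]
  have h4 : (eS w lam c a).map φ = Polynomial.X ^ 2 -
      Polynomial.C (dPhi lam c a - (q : MvPolynomial (Fin (d + 1)) K)) * Polynomial.X + 1 := by
    unfold eS
    rw [Polynomial.map_add, Polynomial.map_add, Polynomial.map_mul, Polynomial.map_mul,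
      Polynomial.map_pow, Polynomial.map_X, Polynomial.map_C, Polynomial.map_C,
      Polynomial.map_one, map_mul, map_sub, h1, h2, h3]
    simp only [map_sub, map_mul, map_one]
    ring
  have hirr : Irreducible ((eS w lam c a).map φ) := by
    rw [h4]
    refine irreducible_quad fun y hy => ?_
    refine Pool.Agent.TH826.DC.dPhi_ne_C (a := a) hc hl (y + (q : K)) ?_
    rw [map_add, ← hy, map_natCast]
    ring
  refine irreducible_of_map φ ?_ ?_ ?_ hirr
  · rw [natDegree_eS, h4]
    compute_degree!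
  · unfold eS
    simp
  · rw [natDegree_eS]
    norm_num

theorem isDomain_SRing (hc : ∀ e, c e ≠ 0) (hl : lam ≠ 0) : IsDomain (SRing w lam c a) :=
  AdjoinRoot.isDomain_of_prime (irreducible_eS hc hl).prime

theorem sof_ne_zero {p : MvPolynomial (Fin (d + 1) ⊕ Fin q) K} (hp : p ≠ 0) :
    sof w lam c a p ≠ 0 := by
  intro h
  have h1 : AdjoinRoot.mk (eS w lam c a) (Polynomial.C p) = 0 := h
  rw [AdjoinRoot.mk_eq_zero] at h1
  obtain ⟨g, hg⟩ := h1
  have he : eS w lam c a ≠ 0 := by
    intro h
    have := natDegree_eS (w := w) (lam := lam) (c := c) (a := a)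
    rw [h, Polynomial.natDegree_zero] at this
    norm_num at this
  have hg0 : g ≠ 0 := by
    rintro rfl
    rw [mul_zero, Polynomial.C_eq_zero] at hg
    exact hp hg
  have h2 := congrArg Polynomial.natDegree hg
  rw [Polynomial.natDegree_C, Polynomial.natDegree_mul he hg0, natDegree_eS] at h2
  omega

theorem spol_dPhi_ne_zero (hc : ∀ e, c e ≠ 0) (hl : lam ≠ 0) :
    spol w lam c a (dPhi lam c a) ≠ 0 := by
  refine sof_ne_zero fun h => ?_
  have h1 : MvPolynomial.rename (Sum.inl : Fin (d + 1) → Fin (d + 1) ⊕ Fin q) (dPhi lam c a) =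
      0 := h
  have h2 : dPhi lam c a = 0 := by
    refine MvPolynomial.rename_injective (Sum.inl : Fin (d + 1) → Fin (d + 1) ⊕ Fin q)
      Sum.inl_injective ?_
    rw [h1, map_zero]
  exact Pool.Agent.TH826.DC.dPhi_ne_C (a := a) hc hl 0 (by rw [h2, map_zero])

end Domain

section LiftS

variable {K : Type*} [Field K] {d m : ℕ} {q : ℕ} {w : Fin q → ℕ} {lam : K}
  {c : Fin (m + 1) → Fin (d + 1) → K}
  {a : Fin (m + 1) → K} {S : Type*} [Field S]

/-- The extension of a homomorphism with `Φ ↦ g Φ ≠ 0` to the ring of the open part. -/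
noncomputable def liftS (g : SRing w lam c a →+* S) (hg : g (spol w lam c a (dPhi lam c a)) ≠ 0) :
    SOpen w lam c a →+* S :=
  AdjoinRoot.lift g (g (spol w lam c a (dPhi lam c a)))⁻¹ (by
    unfold sqnT
    simp only [Polynomial.eval₂_sub, Polynomial.eval₂_mul, Polynomial.eval₂_X,
      Polynomial.eval₂_C, Polynomial.eval₂_one]
    rw [mul_inv_cancel₀ hg, sub_self])

theorem liftS_toS (g : SRing w lam c a →+* S) (hg : g (spol w lam c a (dPhi lam c a)) ≠ 0)
    (b : SRing w lam c a) : liftS g hg (toS w lam c a b) = g b :=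
  AdjoinRoot.lift_of _

theorem liftS_mk (g : SRing w lam c a →+* S) (hg : g (spol w lam c a (dPhi lam c a)) ≠ 0)
    (p : Polynomial (SRing w lam c a)) :
    liftS g hg (AdjoinRoot.mk (sqnT w lam c a) p : AdjoinRoot (sqnT w lam c a)) =
      p.eval₂ g (g (spol w lam c a (dPhi lam c a)))⁻¹ :=
  AdjoinRoot.lift_mk _ p

end LiftS

end Pool.Agent.TH690.SF
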