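import Pool.Agent.TH690.SF.Final
set_option autoImplicit false

/-!
Smoothness of the hypersurfaces at their complex points, the unramifiedness of the symbols and the
independence of their regulators, as predicates.
-/

namespace Pool.Agent.TH690.SF

open Pool.Agent.TH826.MK (KQ symb Unramified Torus)

open Pool.Agent.TH826.GA (cm splx Unimod)

open Pool.Agent.TH826.DC (dPhi)

variable {K : Type*} [Field K] {d m q : ℕ}

/-- The hypersurface `F = Y z² + Y (y_1 + ... + y_q - Φ) z + 1 = 0`,
`Y = y_1 ^ (w_1 + 1) ... y_q ^ (w_q + 1)`, is smooth at its complex points over `σ`: at no such point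
all the partial derivatives
`∂F/∂z = 2 Y z + Y (y_1 + ... + y_q - Φ)`,
`∂F/∂y_k = (w_k + 1) y_k ^ w_k (∏_{i ≠ k} y_i ^ (w_i + 1)) (z² + (y_1 + ... + y_q - Φ) z) + Y z`,
`∂F/∂x_j = - Y ∂Φ/∂x_j z` vanish. -/
def SmoothPts (w : Fin q → ℕ) (σ : K →+* ℂ) (lam : K) (c : Fin (m + 1) → Fin (d + 1) → K)
    (a : Fin (m + 1) → K) : Prop :=
  ∀ (x : Fin (d + 1) → ℂ) (y : Fin q → ℂ) (z Y t : ℂ), Y = ∏ i, y i ^ (w i + 1) →
    t = ∑ i, y i - MvPolynomial.eval₂ σ x (dPhi lam c a) →
    Y * z ^ 2 + Y * t * z + 1 = 0 →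
    2 * Y * z + Y * t ≠ 0 ∨
    (∃ k, (w k + 1) * y k ^ w k * (∏ i ∈ Finset.univ.erase k, y i ^ (w i + 1)) *
      (z ^ 2 + t * z) + Y * z ≠ 0) ∨
    ∃ j, -Y * MvPolynomial.eval₂ σ x (MvPolynomial.pderiv j (dPhi lam c a)) * z ≠ 0

theorem exists_smoothPts (w : Fin q → ℕ) (σ : K →+* ℂ) {c : Fin (m + 1) → Fin (d + 1) → K}
    {a : Fin (m + 1) → K}
    (hdet : ∀ T : Fin (d + 1) → Fin (m + 1), Function.Injective T → (cm c T).det ≠ 0)
    (hgen : ∀ S : Fin (d + 2) → Fin (m + 1), Function.Injective S → ∀ x : Fin (d + 1) → K,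
      ∃ i, ∑ j, c (S i) j * x j ≠ a (S i)) (hm : d + 1 ≤ m) :
    ∃ C : ℝ, ∀ lam : K, C ≤ ‖σ lam‖ → SmoothPts w σ lam c a := by
  obtain ⟨C, hC⟩ := exists_smooth w σ hdet hgen hm
  refine ⟨C, fun lam hlam x y z Y t hY ht heq => ?_⟩
  subst hY
  subst ht
  exact hC lam hlam x y z heq

/-- The symbols of the simplices are unramified: for every field of fractions `L` of the coordinate
ring of the hypersurface, there is an extension `f` of the inclusion to the ring of the open part
such that for all `d + 2` different forms `S` the image of the symbol of `S` under `f` is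
unramified. -/
def UnramSymb.{u, v} {K : Type u} [Field K] (w : Fin q → ℕ) (lam : K)
    (c : Fin (m + 1) → Fin (d + 1) → K) (a : Fin (m + 1) → K) : Prop :=
  ∀ (L : Type v) [Field L] [Algebra (SRing w lam c a) L] [IsFractionRing (SRing w lam c a) L],
    ∃ f : SOpen w lam c a →+* L,
      (∀ b : SRing w lam c a, f (toS w lam c a b) = algebraMap (SRing w lam c a) L b) ∧
      ∀ S : Fin (d + 2) → Fin (m + 1), Function.Injective S →
        KQ.map (d + 1 + q + 1) f (symb (sent w lam c a S)) ∈ Unramified L (d + 1 + q + 1)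

theorem unramSymb (w : Fin q → ℕ) {lam : K} {c : Fin (m + 1) → Fin (d + 1) → K}
    {a : Fin (m + 1) → K} (hA : Unimod c a) (hrow : ∀ e, c e ≠ 0) (hlam : IsIntegral ℤ lam)
    (hl0 : lam ≠ 0) : UnramSymb w lam c a := by
  intro L _ _ _
  have hdom : IsDomain (SRing w lam c a) := isDomain_SRing hrow hl0
  have hinj : Function.Injective (algebraMap (SRing w lam c a) L) :=
    IsFractionRing.injective _ _
  have hne : algebraMap (SRing w lam c a) L (spol w lam c a (dPhi lam c a)) ≠ 0 := by
    rw [Ne, map_eq_zero_iff _ hinj]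
    exact spol_dPhi_ne_zero hrow hl0
  refine ⟨liftS (algebraMap (SRing w lam c a) L) hne, fun b => liftS_toS _ _ _,
    fun S hS => ?_⟩
  exact symb_mem_unramified _ hlam hA hS

/-- There are tori of dimension `d + 1 + q` in the complex points over `σ` of the open part, indexed
by the subsets of `{1, ..., m}` with `d + 1` elements, such that the determinant of the regulators
on the tori of the symbols of the simplices with a facet `L_0` does not vanish. -/
def IndepReg (w : Fin q → ℕ) (σ : K →+* ℂ) (lam : K) (c : Fin (m + 1) → Fin (d + 1) → K)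
    (a : Fin (m + 1) → K) : Prop :=
  ∃ Γ : {s : Finset (Fin m) // s.card = d + 1} → Torus (SOpen w lam c a) (d + 1 + q),
    (∀ t θ (x : K), (Γ t).e θ (scst w lam c a x) = σ x) ∧
    (Matrix.of fun t i : {s : Finset (Fin m) // s.card = d + 1} =>
      (Γ t).reg (symb (sent w lam c a (splx i)))).det ≠ 0

end Pool.Agent.TH690.SF
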