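import Pool.Agent.TH690.SF.Ring
set_option autoImplicit false

/-!
The symbols are unramified.
-/

namespace Pool.Agent.TH690.SF

open scoped WithZero

open Pool.Agent.TH826.MK (KQ symb Unramified unitPart)

open Pool.Agent.TH826.GA

open Pool.Agent.TH826.DC (dPhi)

open Pool.Agent.TH826.EF (onePart onePart_le mem_onePart_of_sum_lt)

variable {K : Type*} [Field K] {d m : ℕ} {q : ℕ} {w : Fin q → ℕ} {lam : K}
  {c : Fin (m + 1) → Fin (d + 1) → K}
  {a : Fin (m + 1) → K}

variable {L : Type*} [Field L] (f : SOpen w lam c a →+* L)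

/-- the composite map from the coefficient field -/
noncomputable def cE : K →+* L := f.comp (scst w lam c a)

/-- the image of `x_j` -/
noncomputable def xE (j : Fin (d + 1)) : L :=
  f (toS w lam c a (spol w lam c a (MvPolynomial.X j)))

/-- the image of `y_i` -/
noncomputable def yE (i : Fin q) : L := f (toS w lam c a (sy w lam c a i))

/-- the image of `z` -/
noncomputable def zE : L := f (toS w lam c a (sz w lam c a))

/-- the image of `L_e` -/
noncomputable def lE (e : Fin (m + 1)) : L := ∑ j, cE f (c e j) * xE f j - cE f (a e)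

theorem map_lf (e : Fin (m + 1)) : f (toS w lam c a (spol w lam c a (lf c a e))) = lE f e := by
  unfold lf lE cE xE scst
  rw [map_sub, map_sub, map_sub, map_sum, map_sum, map_sum]
  simp only [map_mul]
  rfl

theorem map_su (e : Fin (m + 1)) : f (su w lam c a e : SOpen w lam c a) = lE f e := by
  rw [coe_su, map_lf]

theorem map_sPhi : f (toS w lam c a (spol w lam c a (dPhi lam c a))) =
    cE f lam * ∏ e, lE f e := by
  unfold dPhi
  rw [map_mul, map_mul, map_mul, map_prod, map_prod, map_prod]
  simp only [map_lf]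
  rfl

theorem yE_ne_zero (i : Fin q) : yE f i ≠ 0 := ((isUnit_sy w lam c a i).map f).ne_zero

theorem zE_ne_zero : zE f ≠ 0 := ((isUnit_sz w lam c a).map f).ne_zero

theorem zE_eq : (zE f * ∏ i, yE f i ^ (w i + 1))⁻¹ + (zE f + ∑ i, yE f i) = cE f lam * ∏ e, lE f e := by
  have h := congrArg (fun b => f (toS w lam c a b)) (sz_eq w lam c a)
  simp only [map_add, map_sub, map_mul, map_pow, map_one, map_zero, map_prod, map_sum] at h
  rw [map_sPhi] at h
  have hy : ∏ i, yE f i ^ (w i + 1) ≠ 0 :=
    Finset.prod_ne_zero_iff.2 fun i _ => pow_ne_zero _ (yE_ne_zero f i)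
  have hz := zE_ne_zero f
  have h2 : (∏ i, yE f i ^ (w i + 1)) * zE f ^ 2 + (∏ i, yE f i ^ (w i + 1)) *
    (∑ i, yE f i - (cE f lam * ∏ e, lE f e)) * zE f + 1 = 0 := h
  field_simp
  linear_combination h2

theorem lE_ne_zero (e : Fin (m + 1)) : lE f e ≠ 0 := by
  rw [← map_lf]
  exact ((isUnit_sl w lam c a e).map f).ne_zero

theorem map_sg (hA : Unimod c a) {S : Fin (d + 2) → Fin (m + 1)} (hS : Function.Injective S)
    (i : Fin (d + 2)) : f (sg w lam c a S i : SOpen w lam c a) =
      cE f (gam c S i) * lE f (S i) := by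
  unfold sg
  rw [Units.val_mul, map_mul, map_su]
  congr 1
  rw [Units.coe_map]
  show f (scst w lam c a (ku (gam c S i) : K)) = _
  rw [coe_ku (hA.gam_ne hS i)]
  rfl

theorem sum_sg {S : Fin (d + 2) → Fin (m + 1)} :
    ∑ i, cE f (gam c S i) * lE f (S i) = - ∑ i, cE f (gam c S i * a (S i)) := by
  have h1 : ∀ i, cE f (gam c S i) * lE f (S i) =
      ∑ j, cE f (gam c S i * c (S i) j) * xE f j - cE f (gam c S i * a (S i)) := by
    intro i
    unfold lE
    rw [mul_sub, Finset.mul_sum]
    simp only [map_mul, mul_assoc]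
  simp only [h1, Finset.sum_sub_distrib]
  rw [Finset.sum_comm]
  have h2 : ∀ j, ∑ i, cE f (gam c S i * c (S i) j) * xE f j = 0 := by
    intro j
    rw [← Finset.sum_mul, ← map_sum, sum_gam, map_zero, zero_mul]
  simp only [h2, Finset.sum_const_zero, zero_sub]

/-- The coordinates are integral combinations of `d + 1` of the forms. -/
theorem xE_eq (hA : Unimod c a) {T : Fin (d + 1) → Fin (m + 1)} (hT : Function.Injective T)
    (j : Fin (d + 1)) : xE f j =
      ∑ i, cE f (((cm c T).det)⁻¹ * (cm c T).adjugate j i) * (lE f (T i) + cE f (a (T i))) := by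
  have h1 : ∀ i, lE f (T i) + cE f (a (T i)) = ∑ l, cE f (cm c T i l) * xE f l := by
    intro i
    unfold lE cm
    simp
  simp only [h1, Finset.mul_sum]
  rw [Finset.sum_comm]
  have h2 : ∀ l, ∑ i, cE f (((cm c T).det)⁻¹ * (cm c T).adjugate j i) *
      (cE f (cm c T i l) * xE f l) = (if j = l then 1 else 0) * xE f l := by
    intro l
    simp only [← mul_assoc, ← Finset.sum_mul, ← map_mul, ← map_sum]
    congr 1
    have h3 : ∑ i, ((cm c T).det)⁻¹ * (cm c T).adjugate j i * cm c T i l =
        if j = l then 1 else 0 := by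
      simp only [mul_assoc, ← Finset.mul_sum]
      have h4 := congrFun (congrFun (Matrix.adjugate_mul (cm c T)) j) l
      rw [Matrix.mul_apply] at h4
      rw [h4, Matrix.smul_apply, Matrix.one_apply, smul_eq_mul, ← mul_assoc,
        inv_mul_cancel₀ (hA.det_ne T hT), one_mul]
    rw [h3]
    split_ifs <;> simp
  simp only [h2]
  simp

/-- the places of the `u_k` among the entries -/
def iu (d q : ℕ) (k : Fin (d + 1)) : Fin (d + 1 + q + 1) := (Fin.castAdd q k).succ

/-- the places of `z` and the `y_i` among the entries -/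
def iy (d q : ℕ) : Fin (q + 1) → Fin (d + 1 + q + 1) :=
  Fin.cons 0 fun i => (Fin.natAdd (d + 1) i).succ

theorem iu_injective (d q : ℕ) : Function.Injective (iu d q) := fun _ _ h =>
  Fin.castAdd_injective _ _ (Fin.succ_injective _ h)

theorem iy_injective (d q : ℕ) : Function.Injective (iy d q) := by
  unfold iy
  rw [Fin.cons_injective_iff]
  refine ⟨?_, fun k l h => Fin.natAdd_injective _ _ (Fin.succ_injective _ h)⟩
  rintro ⟨i, hi⟩
  exact Fin.succ_ne_zero _ hi

/-- The symbols are unramified at all discrete valuations. -/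
theorem symb_mem_unitPart (hlam : IsIntegral ℤ lam) (hA : Unimod c a)
    (v : Valuation L ℤᵐ⁰) {S : Fin (d + 2) → Fin (m + 1)} (hS : Function.Injective S) :
    symb (fun l => Units.map (f : SOpen w lam c a →* L) (sent w lam c a S l)) ∈
      unitPart v (d + 1 + q + 1) := by
  have hc : ∀ x : K, IsIntegral ℤ x → v (cE f x) ≤ 1 := fun x hx =>
    Pool.Agent.TH826.MK.val_le_one_of_integral v (map_isIntegral_int _ hx)
  set z : Fin (d + 2) → Lˣ := fun k => Units.map (f : SOpen w lam c a →* L) (sg w lam c a S k)
    with hz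
  set t : Fin (q + 1) → Lˣ := Fin.cons (Units.map (f : SOpen w lam c a →* L) (uz w lam c a))
    fun i => Units.map (f : SOpen w lam c a →* L) (uy w lam c a i) with ht
  set b : Fin (d + 1 + q + 1) → Lˣ :=
    fun l => Units.map (f : SOpen w lam c a →* L) (sent w lam c a S l) with hb
  have ht0 : (t 0 : L) = zE f := rfl
  have hts : ∀ i : Fin q, (t i.succ : L) = yE f i := fun i => rfl
  have hzv : ∀ k, (z k : L) = cE f (gam c S k) * lE f (S k) := fun k => map_sg f hA hS k
  have hgam : ∀ k, v (cE f (gam c S k)) = 1 := by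
    intro k
    refine le_antisymm (hc _ (hA.gam_int S k)) ?_
    have h1 := hc _ (hA.gam_inv hS k)
    rw [map_inv₀, map_inv₀] at h1
    have h0 : cE f (gam c S k) ≠ 0 := (map_ne_zero _).2 (hA.gam_ne hS k)
    rwa [inv_le_one₀ (by rw [Valuation.pos_iff]; exact h0)] at h1
  have hvz : ∀ k, v (z k : L) = v (lE f (S k)) := by
    intro k
    rw [hzv, map_mul, hgam, one_mul]
  have hbu : (fun k : Fin (d + 1) => b (iu d q k)) = fun k : Fin (d + 1) => z k.succ / z 0 := by
    funext k
    have h1 : sent w lam c a S (iu d q k) = sg w lam c a S k.succ / sg w lam c a S 0 := by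
      unfold sent iu
      rw [Fin.cons_succ, Fin.append_left]
    show Units.map (f : SOpen w lam c a →* L) (sent w lam c a S (iu d q k)) = _
    rw [h1]
    exact map_div (Units.map (f : SOpen w lam c a →* L)) _ _
  have hby : (fun k : Fin (q + 1) => b (iy d q k)) = t := by
    funext k
    refine Fin.cases ?_ (fun i => ?_) k
    · rfl
    · have h1 : sent w lam c a S (iy d q i.succ) = uy w lam c a i := by
        unfold sent iy
        rw [Fin.cons_succ, Fin.cons_succ, Fin.append_right]
      show Units.map (f : SOpen w lam c a →* L) (sent w lam c a S (iy d q i.succ)) = _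
      rw [h1]
      rfl
  by_cases hB : ∃ k, 1 < v (z k : L)
  · obtain ⟨k, hk⟩ := hB
    obtain ⟨l, -, hl⟩ := Finset.exists_max_image Finset.univ (fun k => v (z k : L))
      ⟨k, Finset.mem_univ k⟩
    have h2 : 1 < v (z l : L) := hk.trans_le (hl k (Finset.mem_univ k))
    have h3 : symb (fun l : Fin (d + 1) => z l.succ / z 0) ∈ onePart v (d + 1) := by
      refine mem_onePart_of_sum_lt v z l (fun k => hl k (Finset.mem_univ k)) ?_
      refine lt_of_le_of_lt ?_ h2
      simp only [hzv]
      rw [sum_sg f, Valuation.map_neg]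
      exact Valuation.map_sum_le v fun k _ => hc _ ((hA.gam_int S k).mul (hA.int_a _))
    exact onePart_le v (mem_onePart_of_comp v b (iu_injective d q) (by rw [hbu]; exact h3))
  · push Not at hB
    have hSk : ∀ k, v (lE f (S k)) ≤ 1 := fun k => by
      rw [← hvz]
      exact hB k
    -- the coordinates are integral
    have hT : Function.Injective fun p : Fin (d + 1) => S ((0 : Fin (d + 2)).succAbove p) :=
      injective_face hS 0
    have hx : ∀ j, v (xE f j) ≤ 1 := by
      intro j
      rw [xE_eq f hA hT j]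
      refine Valuation.map_sum_le v fun i _ => ?_
      rw [map_mul]
      refine mul_le_one' (hc _ ((hA.det_inv _ hT).mul (isIntegral_adj hA _ _ _))) ?_
      exact (v.map_add _ _).trans (max_le (hSk _) (hc _ (hA.int_a _)))
    have hle : ∀ e, v (lE f e) ≤ 1 := by
      intro e
      refine (v.map_sub _ _).trans (max_le ?_ (hc _ (hA.int_a _)))
      refine Valuation.map_sum_le v fun j _ => ?_
      rw [map_mul]
      exact mul_le_one' (hc _ (hA.int_c _ _)) (hx j)
    have hPhi : v (cE f lam * ∏ e, lE f e) ≤ 1 := by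
      rw [map_mul, map_prod]
      exact mul_le_one' (hc _ hlam) (Finset.prod_le_one' fun e _ => hle e)
    set wt : Fin (q + 1) → ℕ := Fin.cons 1 fun i => w i + 1 with hwt
    have hwt1 : ∀ l, 1 ≤ wt l := by
      intro l
      refine Fin.cases ?_ (fun i => ?_) l
      · exact le_rfl
      · rw [hwt, Fin.cons_succ]
        omega
    set W : Fin (q + 2) → Lˣ := Fin.cons (∏ i, t i ^ wt i)⁻¹ t with hW
    have hprod : ((∏ i, t i ^ wt i : Lˣ) : L) = zE f * ∏ i, yE f i ^ (w i + 1) := by
      rw [Units.coe_prod, Fin.prod_univ_succ, Units.val_pow_eq_pow_val, ht0, hwt, Fin.cons_zero,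
        pow_one]
      congr 1
    have hsum : ∑ k, (W k : L) = cE f lam * ∏ e, lE f e := by
      rw [Fin.sum_univ_succ, ← zE_eq f]
      have h0 : ((W 0 : Lˣ) : L) = (zE f * ∏ i, yE f i ^ (w i + 1))⁻¹ := by
        rw [hW, Fin.cons_zero, Units.val_inv_eq_inv_val, hprod]
      have h1 : ∑ k : Fin (q + 1), ((W k.succ : Lˣ) : L) = zE f + ∑ i, yE f i := by
        rw [hW]
        simp only [Fin.cons_succ]
        rw [Fin.sum_univ_succ, ht0]
        simp only [hts]
      rw [h0, h1]
    by_cases hlt : ∃ l, v (cE f lam * ∏ e, lE f e) < v (W l : L)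
    · obtain ⟨l, hl⟩ := hlt
      have h1 : symb t ∈ onePart v (q + 1) := block_mem_onePart v t wt l (by
        rw [← hW, hsum]
        exact hl)
      exact onePart_le v (mem_onePart_of_comp v b (iy_injective d q) (by rw [hby]; exact h1))
    · push Not at hlt
      have hw1 : ∀ l, v (W l : L) ≤ 1 := fun l => (hlt l).trans hPhi
      have hti1 : ∀ i, v (t i : L) ≤ 1 := by
        intro i
        have h1 := hw1 i.succ
        rwa [hW, Fin.cons_succ] at h1
      have hP1 : 1 ≤ ∏ i, v (t i : L) ^ wt i := by
        have h1 := hw1 0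
        rw [hW, Fin.cons_zero, Units.val_inv_eq_inv_val, Units.coe_prod, map_inv₀, map_prod] at h1
        simp only [Units.val_pow_eq_pow_val, map_pow] at h1
        have h0 : 0 < ∏ i, v (t i : L) ^ wt i := by
          rw [zero_lt_iff]
          exact Finset.prod_ne_zero_iff.2 fun i _ =>
            pow_ne_zero _ ((Valuation.ne_zero_iff v).2 (t i).ne_zero)
        rwa [inv_le_one₀ h0] at h1
      have hpow : ∀ l, v (t l : L) ^ wt l ≤ v (t l : L) := by
        intro l
        obtain ⟨k, hk⟩ := Nat.exists_eq_succ_of_ne_zero (Nat.one_le_iff_ne_zero.1 (hwt1 l))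
        rw [hk, pow_succ]
        calc _ ≤ 1 * v (t l : L) := mul_le_mul' (pow_le_one' (hti1 l) _) le_rfl
          _ = _ := one_mul _
      have hti : ∀ i, v (t i : L) = 1 := by
        intro l
        refine le_antisymm (hti1 l) (hP1.trans ?_)
        rw [← Finset.mul_prod_erase _ _ (Finset.mem_univ l)]
        calc v (t l : L) ^ wt l * ∏ x ∈ Finset.univ.erase l, v (t x : L) ^ wt x
            ≤ v (t l : L) * 1 := mul_le_mul'
              (hpow l)
              (Finset.prod_le_one' fun j _ => pow_le_one' (hti1 j) _)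
          _ = v (t l : L) := mul_one _
      have hweq0 : 1 ≤ v (W (Fin.succ 0) : L) := by
        rw [hW, Fin.cons_succ, hti]
      have hu3 : v (cE f lam * ∏ e, lE f e) = 1 := by
        exact le_antisymm hPhi (hweq0.trans (hlt _))
      have hB1 : ∀ e, v (lE f e) = 1 := by
        intro e
        refine le_antisymm (hle e) ?_
        rw [← hu3, map_mul, map_prod, ← Finset.mul_prod_erase _ _ (Finset.mem_univ e)]
        have h1 : ∏ x ∈ Finset.univ.erase e, v (lE f x) ≤ 1 :=
          Finset.prod_le_one' fun j _ => hle j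
        calc v (cE f lam) * (v (lE f e) * ∏ x ∈ Finset.univ.erase e, v (lE f x))
            ≤ 1 * (v (lE f e) * 1) := mul_le_mul' (hc _ hlam) (mul_le_mul' le_rfl h1)
          _ = v (lE f e) := by rw [one_mul, mul_one]
      refine Submodule.subset_span ⟨_, fun l => ?_, rfl⟩
      refine Fin.cases ?_ (fun l => ?_) l
      · have h1 : b 0 = t 0 := rfl
        rw [h1]
        exact hti 0
      · refine Fin.addCases (fun k => ?_) (fun i => ?_) l
        · have h1 : b (Fin.castAdd q k).succ = z k.succ / z 0 := congrFun hbu k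
          rw [h1, Units.val_div_eq_div_val, map_div₀, hvz, hvz, hB1, hB1, div_one]
        · have h1 : b (Fin.natAdd (d + 1) i).succ = t i.succ := congrFun hby i.succ
          rw [h1]
          exact hti i.succ

theorem symb_mem_unramified (hlam : IsIntegral ℤ lam) (hA : Unimod c a)
    {S : Fin (d + 2) → Fin (m + 1)} (hS : Function.Injective S) :
    KQ.map (d + 1 + q + 1) f (symb (sent w lam c a S)) ∈ Unramified L (d + 1 + q + 1) := by
  rw [KQ.map_symb]
  unfold Unramified
  simp only [Submodule.mem_iInf]
  intro v _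
  exact symb_mem_unitPart f hlam hA v hS

end Pool.Agent.TH690.SF
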